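import Pool.Agent.Helper884.IC.Compl

/-!
Unitriangular groups over finite fields, their two-sided orbits on strictly upper triangular
matrices and on linear functionals, and supercharacter theories in the sense of Diaconis and Isaacs.
-/

set_option linter.unusedSectionVars false

open scoped BigOperators Classical Matrix
open Pool.Agent.Helper884.IC

noncomputable section

namespace Pool.Agent.R721.Andre

section defs

variable (n : ℕ) (F : Type) [Field F] [Fintype F]

/-- The space of strictly upper triangular `n × n` matrices over `F`. -/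
def Nil : Submodule F (Matrix (Fin n) (Fin n) F) where
  carrier := {y | ∀ i j, j ≤ i → y i j = 0}
  add_mem' := by
    intro a b ha hb i j hij
    simp [ha i j hij, hb i j hij]
  zero_mem' := by intro i j _; rfl
  smul_mem' := by
    intro c a ha i j hij
    simp [ha i j hij]

variable {n F}

lemma mem_Nil {y : Matrix (Fin n) (Fin n) F} : y ∈ Nil n F ↔ ∀ i j, j ≤ i → y i j = 0 := Iff.rfl

lemma mul_mem_Nil {y z : Matrix (Fin n) (Fin n) F} (hy : y ∈ Nil n F) (hz : z ∈ Nil n F) :
    y * z ∈ Nil n F := by
  intro i j hij
  rw [Matrix.mul_apply]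
  refine Finset.sum_eq_zero fun k _ => ?_
  by_cases hk : k ≤ i
  · rw [hy i k hk, zero_mul]
  · rw [hz k j (hij.trans (not_le.mp hk).le), mul_zero]

variable (n F)

/-- The group `U_n(F)` of upper unitriangular `n × n` matrices over `F`. -/
def U : Subgroup (Matrix.GeneralLinearGroup (Fin n) F) where
  carrier := {g | (g : Matrix (Fin n) (Fin n) F) - 1 ∈ Nil n F}
  mul_mem' := by
    intro g h hg hh
    have e : ((g * h : Matrix.GeneralLinearGroup (Fin n) F) : Matrix (Fin n) (Fin n) F) - 1
        = ((g : Matrix (Fin n) (Fin n) F) - 1) * ((h : Matrix (Fin n) (Fin n) F) - 1)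
          + (((g : Matrix (Fin n) (Fin n) F) - 1) + ((h : Matrix (Fin n) (Fin n) F) - 1)) := by
      rw [Units.val_mul]
      noncomm_ring
    show ((g * h : Matrix.GeneralLinearGroup (Fin n) F) : Matrix (Fin n) (Fin n) F) - 1 ∈ Nil n F
    rw [e]
    exact (Nil n F).add_mem (mul_mem_Nil hg hh) ((Nil n F).add_mem hg hh)
  one_mem' := by
    show ((1 : Matrix.GeneralLinearGroup (Fin n) F) : Matrix (Fin n) (Fin n) F) - 1 ∈ Nil n F
    simp
  inv_mem' := by
    intro g hg
    -- the inverse is a power
    have hpow : ∀ k : ℕ, ((g ^ k : Matrix.GeneralLinearGroup (Fin n) F) :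
        Matrix (Fin n) (Fin n) F) - 1 ∈ Nil n F := by
      intro k
      induction k with
      | zero => simp
      | succ k ih =>
        have e : ((g ^ (k + 1) : Matrix.GeneralLinearGroup (Fin n) F) :
            Matrix (Fin n) (Fin n) F) - 1
            = (((g ^ k : Matrix.GeneralLinearGroup (Fin n) F) : Matrix (Fin n) (Fin n) F) - 1)
                * ((g : Matrix (Fin n) (Fin n) F) - 1)
              + ((((g ^ k : Matrix.GeneralLinearGroup (Fin n) F) :
                Matrix (Fin n) (Fin n) F) - 1) + ((g : Matrix (Fin n) (Fin n) F) - 1)) := by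
          rw [pow_succ, Units.val_mul]
          noncomm_ring
        rw [e]
        exact (Nil n F).add_mem (mul_mem_Nil ih hg) ((Nil n F).add_mem ih hg)
    show ((g⁻¹ : Matrix.GeneralLinearGroup (Fin n) F) : Matrix (Fin n) (Fin n) F) - 1 ∈ Nil n F
    have h1 : g⁻¹ = g ^ (orderOf g - 1) := by
      rw [inv_eq_iff_mul_eq_one, ← pow_succ', Nat.sub_add_cancel (orderOf_pos g),
        pow_orderOf_eq_one]
    rw [h1]
    exact hpow _

variable {n F}

/-- The underlying matrix of an element of `U_n(F)`. -/
abbrev mat (g : U n F) : Matrix (Fin n) (Fin n) F :=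
  ((g : Matrix.GeneralLinearGroup (Fin n) F) : Matrix (Fin n) (Fin n) F)

lemma mat_one : mat (1 : U n F) = 1 := rfl

lemma mat_mul (g h : U n F) : mat (g * h) = mat g * mat h := rfl

lemma mat_inj {g h : U n F} (e : mat g = mat h) : g = h :=
  Subtype.ext (Units.ext e)

/-- `g - 1` as a strictly upper triangular matrix. -/
def sub1 (g : U n F) : Nil n F := ⟨mat g - 1, g.2⟩

lemma two_sided_mem (u v : U n F) (y : Nil n F) :
    mat u * (y : Matrix (Fin n) (Fin n) F) * mat v ∈ Nil n F := by
  have e : mat u * (y : Matrix (Fin n) (Fin n) F) * mat v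
      = (y : Matrix (Fin n) (Fin n) F) + (mat u - 1) * (y : Matrix (Fin n) (Fin n) F)
        + (y : Matrix (Fin n) (Fin n) F) * (mat v - 1)
        + (mat u - 1) * (y : Matrix (Fin n) (Fin n) F) * (mat v - 1) := by
    noncomm_ring
  rw [e]
  have hu : mat u - 1 ∈ Nil n F := u.2
  have hv : mat v - 1 ∈ Nil n F := v.2
  exact (Nil n F).add_mem ((Nil n F).add_mem ((Nil n F).add_mem y.2 (mul_mem_Nil hu y.2))
    (mul_mem_Nil y.2 hv)) (mul_mem_Nil (mul_mem_Nil hu y.2) hv)

/-- The map `y ↦ u * y * v` on strictly upper triangular matrices, for `u`, `v` unitriangular. -/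
def twoSided (u v : U n F) : Nil n F →ₗ[F] Nil n F where
  toFun y := ⟨mat u * (y : Matrix (Fin n) (Fin n) F) * mat v, two_sided_mem u v y⟩
  map_add' y z := by
    apply Subtype.ext
    show mat u * ((y : Matrix (Fin n) (Fin n) F) + (z : Matrix (Fin n) (Fin n) F)) * mat v = _
    simp [mul_add, add_mul]
  map_smul' c y := by
    apply Subtype.ext
    show mat u * (c • (y : Matrix (Fin n) (Fin n) F)) * mat v = _
    simp

/-- The two-sided orbit `U lam U` of a linear functional `lam` on strictly upper triangular
matrices, where `(u lam v)(y) = lam (u y v)`. -/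
def dualOrbit (lam : Module.Dual F (Nil n F)) : Set (Module.Dual F (Nil n F)) :=
  {mu | ∃ u v : U n F, ∀ y : Nil n F, mu y = lam (twoSided u v y)}

/-- The function `g ↦ ∑ θ(mu (g - 1))`, the sum over `mu` in the two-sided orbit of `lam`. -/
def orbitSum (θ : AddChar F ℂ) (lam : Module.Dual F (Nil n F)) (g : U n F) : ℂ :=
  ∑ᶠ mu ∈ dualOrbit lam, θ (mu (sub1 g))

/-- The functional `y ↦ a * y i j` attached to the box `(i, j)` with label `a`. -/
def box (i j : Fin n) (a : F) : Module.Dual F (Nil n F) where
  toFun y := a * (y : Matrix (Fin n) (Fin n) F) i j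
  map_add' y z := by simp [mul_add]
  map_smul' c y := by simp; ring

end defs

section sct

/-- The irreducible complex characters of `G`, as a type. -/
abbrev IrrCh (G : Type) [Group G] : Type := {χ : G → ℂ // IsIrrChar χ}

/-- For an equivalence relation `X` on the irreducible characters of `G`, the function
`∑ φ(1) φ`, the sum over the block of `ψ`. -/
def superchar {G : Type} [Group G] (X : Setoid (IrrCh G)) (ψ : IrrCh G) (g : G) : ℂ :=
  ∑ᶠ φ ∈ {φ : IrrCh G | X φ ψ}, φ.1 1 * φ.1 g

/-- A supercharacter theory of a finite group `G` (Diaconis and Isaacs): a partition `X` of the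
irreducible characters and a partition `K` of `G`, both given as equivalence relations, with equally
many blocks, such that `{1}` is a block of `K` and for every block of `X` the character
`∑ φ(1) φ` (sum over the block) is constant on the blocks of `K`. -/
structure SupercharacterTheory (G : Type) [Group G] where
  X : Setoid (IrrCh G)
  K : Setoid G
  card_eq : Nat.card (Quotient X) = Nat.card (Quotient K)
  one_block : ∀ g : G, K g 1 → g = 1
  const : ∀ (ψ : IrrCh G) (g h : G), K g h → superchar X ψ g = superchar X ψ h

/-- The supercharacter theory contains the irreducible character `χ`: `{χ}` is a block. -/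
def SupercharacterTheory.Contains {G : Type} [Group G] (T : SupercharacterTheory G)
    (χ : IrrCh G) : Prop := ∀ ψ : IrrCh G, T.X ψ χ → ψ = χ

end sct

end Pool.Agent.R721.Andre
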