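import Pool.Agent.R721.Andre.Fourier

set_option linter.unusedSectionVars false

open scoped BigOperators Classical Matrix
open Pool.Agent.Helper884.IC

noncomputable section

namespace Pool.Agent.R721.Andre

variable {n : ℕ} {F : Type} [Field F] [Fintype F]

/-- at most one nonzero entry in each row and column -/
def IsPP (z : Nil n F) : Prop :=
  ∀ i j, (z : Matrix (Fin n) (Fin n) F) i j ≠ 0 →
    (∀ l, l ≠ j → (z : Matrix (Fin n) (Fin n) F) i l = 0) ∧
    (∀ k, k ≠ i → (z : Matrix (Fin n) (Fin n) F) k j = 0)

/-- rows with index at least `m` are processed -/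
def Good (m : ℕ) (z : Nil n F) : Prop :=
  ∀ i j : Fin n, m ≤ i.val → (z : Matrix (Fin n) (Fin n) F) i j ≠ 0 →
    (∀ l, l ≠ j → (z : Matrix (Fin n) (Fin n) F) i l = 0) ∧
    (∀ k, k ≠ i → (z : Matrix (Fin n) (Fin n) F) k j = 0)

lemma good_step (m : ℕ) (z : Nil n F) (hz : Good (m + 1) z) :
    ∃ u v : U n F, Good m (twoSided u v z) := by
  by_cases hm : m < n
  swap
  · refine ⟨1, 1, ?_⟩
    rw [twoSided_one]
    intro i j hi
    exact absurd i.2 (by omega)
  set r : Fin n := ⟨m, hm⟩ with hr
  set Z : Matrix (Fin n) (Fin n) F := (z : Matrix (Fin n) (Fin n) F) with hZ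
  by_cases hrow : ∀ j, Z r j = 0
  · refine ⟨1, 1, ?_⟩
    rw [twoSided_one]
    intro i j hi hne
    by_cases h : i = r
    · subst h; exact absurd (hrow j) hne
    · apply hz i j _ hne
      have : i.val ≠ m := fun h' => h (Fin.ext h')
      omega
  push Not at hrow
  -- leftmost nonzero entry in row r
  obtain ⟨c, hc1, hc2⟩ : ∃ c, Z r c ≠ 0 ∧ ∀ l, l < c → Z r l = 0 := by
    have hne : (Finset.univ.filter fun j => Z r j ≠ 0).Nonempty := by
      obtain ⟨j, hj⟩ := hrow
      exact ⟨j, by simpa using hj⟩
    refine ⟨(Finset.univ.filter fun j => Z r j ≠ 0).min' hne, ?_, ?_⟩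
    · have := Finset.min'_mem _ hne
      simpa using this
    · intro l hl
      by_contra h
      have := Finset.min'_le (Finset.univ.filter fun j => Z r j ≠ 0) l (by simpa using h)
      exact absurd hl (not_lt.mpr this)
  have hrc : r < c := by
    by_contra h
    exact hc1 (z.2 r c (not_lt.mp h))
  -- the two elementary transformations
  let a : Nil n F := ⟨Matrix.of fun k l => if l = r ∧ k < r then -(Z k c / Z r c) else 0, by
    intro i j hij
    simp only [Matrix.of_apply]
    rw [if_neg]
    rintro ⟨rfl, h⟩
    exact absurd h (not_lt.mpr hij)⟩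
  let b : Nil n F := ⟨Matrix.of fun k l => if k = c ∧ c < l then -(Z r l / Z r c) else 0, by
    intro i j hij
    simp only [Matrix.of_apply]
    rw [if_neg]
    rintro ⟨rfl, h⟩
    exact absurd h (not_lt.mpr hij)⟩
  refine ⟨ofNil a, ofNil b, ?_⟩
  -- entries of the product
  have h1 : ∀ k l, ((1 + (a : Matrix (Fin n) (Fin n) F)) * Z) k l
      = if k < r then Z k l - Z k c / Z r c * Z r l else Z k l := by
    intro k l
    rw [add_mul, one_mul, Matrix.add_apply, Matrix.mul_apply]
    by_cases hk : k < r
    · rw [if_pos hk, Finset.sum_eq_single r]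
      · show Z k l + (if r = r ∧ k < r then -(Z k c / Z r c) else 0) * Z r l = _
        rw [if_pos ⟨rfl, hk⟩]; ring
      · intro s _ hs
        show (if s = r ∧ k < r then -(Z k c / Z r c) else 0) * Z s l = 0
        rw [if_neg (fun h => hs h.1), zero_mul]
      · intro h; exact absurd (Finset.mem_univ _) h
    · rw [if_neg hk, Finset.sum_eq_zero, add_zero]
      intro s _
      show (if s = r ∧ k < r then -(Z k c / Z r c) else 0) * Z s l = 0
      rw [if_neg (fun h => hk h.2), zero_mul]
  have hcol : ∀ k, k ≠ r → r < k → Z k c = 0 := by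
    intro k _ hk2
    by_contra hne
    have h2 := hz k c (by
      have : r.val < k.val := hk2
      have hrv : r.val = m := rfl
      omega) hne
    have := h2.2 r (ne_of_lt hk2)
    exact hc1 this
  have h2 : ∀ k l, (twoSided (ofNil a) (ofNil b) z : Matrix (Fin n) (Fin n) F) k l
      = if k = r then (if l = c then Z r c else 0)
        else if k < r then Z k l - Z k c / Z r c * Z r l else Z k l := by
    intro k l
    show ((1 + (a : Matrix (Fin n) (Fin n) F)) * Z * (1 + (b : Matrix (Fin n) (Fin n) F))) k l = _
    rw [mul_add, mul_one, Matrix.add_apply]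
    have h3' : ((1 + (a : Matrix (Fin n) (Fin n) F)) * Z * (b : Matrix (Fin n) (Fin n) F)) k l
        = ∑ s, ((1 + (a : Matrix (Fin n) (Fin n) F)) * Z) k s
          * (b : Matrix (Fin n) (Fin n) F) s l := Matrix.mul_apply
    rw [h3']
    have h3 : ∑ s, ((1 + (a : Matrix (Fin n) (Fin n) F)) * Z) k s
        * (b : Matrix (Fin n) (Fin n) F) s l
        = if c < l then -(((1 + (a : Matrix (Fin n) (Fin n) F)) * Z) k c * (Z r l / Z r c))
          else 0 := by
      by_cases hl : c < l
      · rw [if_pos hl, Finset.sum_eq_single c]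
        · show _ * (if c = c ∧ c < l then -(Z r l / Z r c) else 0) = _
          rw [if_pos ⟨rfl, hl⟩]; ring
        · intro s _ hs
          show _ * (if s = c ∧ c < l then -(Z r l / Z r c) else 0) = 0
          rw [if_neg (fun h => hs h.1), mul_zero]
        · intro h; exact absurd (Finset.mem_univ _) h
      · rw [if_neg hl, Finset.sum_eq_zero]
        intro s _
        show _ * (if s = c ∧ c < l then -(Z r l / Z r c) else 0) = 0
        rw [if_neg (fun h => hl h.2), mul_zero]
    rw [h3, h1 k l, h1 k c]
    by_cases hk : k = r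
    · subst hk
      rw [if_neg (lt_irrefl _), if_neg (lt_irrefl _), if_pos rfl]
      rcases lt_trichotomy l c with h | h | h
      · rw [if_neg (not_lt.mpr h.le), if_neg (ne_of_lt h), hc2 l h, add_zero]
      · subst h
        rw [if_neg (lt_irrefl _), if_pos rfl, add_zero]
      · rw [if_pos h, if_neg (ne_of_gt h)]
        field_simp
        ring
    · rw [if_neg hk]
      by_cases hk2 : k < r
      · rw [if_pos hk2, if_pos hk2]
        have : Z k c - Z k c / Z r c * Z r c = 0 := by field_simp; ring
        rw [this]
        simp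
      · rw [if_neg hk2, if_neg hk2]
        have hk3 : r < k := lt_of_le_of_ne (not_lt.mp hk2) (Ne.symm hk)
        rw [hcol k hk hk3]
        simp
  intro i j hi hne
  rw [h2] at hne
  by_cases hir : i = r
  · subst hir
    rw [if_pos rfl] at hne
    have hjc : j = c := by
      by_contra h
      rw [if_neg h] at hne
      exact hne rfl
    subst hjc
    refine ⟨fun l hl => ?_, fun k hk => ?_⟩
    · rw [h2, if_pos rfl, if_neg hl]
    · rw [h2, if_neg hk]
      by_cases hk2 : k < r
      · rw [if_pos hk2]; field_simp; ring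
      · rw [if_neg hk2]
        exact hcol k hk (lt_of_le_of_ne (not_lt.mp hk2) (Ne.symm hk))
  · have hir2 : r < i := by
      have h4 : i.val ≠ m := fun h' => hir (Fin.ext h')
      show m < i.val
      omega
    rw [if_neg hir, if_neg (not_lt.mpr hir2.le)] at hne
    have h5 := hz i j (by
      have : m < i.val := hir2
      omega) hne
    refine ⟨fun l hl => ?_, fun k hk => ?_⟩
    · rw [h2, if_neg hir, if_neg (not_lt.mpr hir2.le)]
      exact h5.1 l hl
    · rw [h2]
      by_cases hkr : k = r
      · subst hkr
        rw [if_pos rfl]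
        by_cases hjc : j = c
        · subst hjc
          exact absurd (hcol i hir hir2) hne
        · rw [if_neg hjc]
      · rw [if_neg hkr]
        by_cases hk2 : k < r
        · rw [if_pos hk2]
          have e1 : Z k j = 0 := h5.2 k hk
          have e2 : Z r j = 0 := h5.2 r (ne_of_lt hir2)
          rw [e1, e2]; simp
        · rw [if_neg hk2]; exact h5.2 k hk

theorem exists_pp (y : Nil n F) : ∃ u v : U n F, IsPP (twoSided u v y) := by
  have h : ∀ d : ℕ, d ≤ n → ∃ u v : U n F, Good (n - d) (twoSided u v y) := by
    intro d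
    induction d with
    | zero =>
      intro _
      refine ⟨1, 1, ?_⟩
      intro i j hi
      exact absurd i.2 (by omega)
    | succ d ih =>
      intro hd
      obtain ⟨u, v, h⟩ := ih (by omega)
      obtain ⟨u', v', h'⟩ := good_step (n - (d + 1)) (twoSided u v y) (by
        have : n - (d + 1) + 1 = n - d := by omega
        rw [this]; exact h)
      exact ⟨u' * u, v * v', by rw [← twoSided_comp]; exact h'⟩
  obtain ⟨u, v, h⟩ := h n le_rfl
  exact ⟨u, v, fun i j hne => h i j (by omega) hne⟩

end Pool.Agent.R721.Andre
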