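import Pool.Agent.R721.Andre.Theory

set_option linter.unusedSectionVars false

open scoped BigOperators Classical Matrix
open Pool.Agent.Helper884.IC

noncomputable section

namespace Pool.Agent.R721.Andre

variable {n : ℕ} {F : Type} [Field F] [Fintype F]

instance : Finite (Quotient (relD n F)) := Quotient.finite _
instance : Finite (Quotient (relK n F)) := Quotient.finite _

lemma phi_inv (θ : AddChar F ℂ) (a : Quotient (relD n F) → ℂ) (u v : U n F) (z : Nil n F) :
    ∑ mu : Module.Dual F (Nil n F), a (Quotient.mk _ mu) * θ (mu (twoSided u v z))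
      = ∑ mu : Module.Dual F (Nil n F), a (Quotient.mk _ mu) * θ (mu z) := by
  refine Finset.sum_bij' (fun mu _ => dualTwo u v mu) (fun mu _ => dualTwo u⁻¹ v⁻¹ mu) ?_ ?_ ?_ ?_ ?_
  · intro mu _; exact Finset.mem_univ _
  · intro mu _; exact Finset.mem_univ _
  · intro mu _
    ext y
    rw [dualTwo_apply, dualTwo_apply, twoSided_comp, mul_inv_cancel, inv_mul_cancel, twoSided_one]
  · intro mu _
    ext y
    rw [dualTwo_apply, dualTwo_apply, twoSided_comp, inv_mul_cancel, mul_inv_cancel, twoSided_one]
  · intro mu _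
    have h : (Quotient.mk (relD n F) mu) = Quotient.mk _ (dualTwo u v mu) :=
      Quotient.sound ⟨u, v, fun y => rfl⟩
    rw [h]
    rfl

/-- transform of a function on the orbits of functionals -/
def phi (θ : AddChar F ℂ) : (Quotient (relD n F) → ℂ) →ₗ[ℂ] (Quotient (relK n F) → ℂ) where
  toFun a := Quotient.lift
    (fun g : U n F => ∑ mu : Module.Dual F (Nil n F), a (Quotient.mk _ mu) * θ (mu (sub1 g))) (by
      intro g h hgh
      obtain ⟨u, v, e⟩ := relK_iff.mp hgh
      show ∑ mu : Module.Dual F (Nil n F), a (Quotient.mk _ mu) * θ (mu (sub1 g))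
        = ∑ mu : Module.Dual F (Nil n F), a (Quotient.mk _ mu) * θ (mu (sub1 h))
      rw [e, phi_inv])
  map_add' a b := by
    funext q
    induction q using Quotient.inductionOn with
    | h g =>
      simp only [Quotient.lift_mk, Pi.add_apply, add_mul, Finset.sum_add_distrib]
  map_smul' c a := by
    funext q
    induction q using Quotient.inductionOn with
    | h g =>
      simp only [Quotient.lift_mk, Pi.smul_apply, smul_eq_mul, mul_assoc, Finset.mul_sum,
        RingHom.id_apply]

lemma phi_mk (θ : AddChar F ℂ) (a : Quotient (relD n F) → ℂ) (g : U n F) :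
    phi θ a (Quotient.mk _ g)
      = ∑ mu : Module.Dual F (Nil n F), a (Quotient.mk _ mu) * θ (mu (sub1 g)) := rfl

lemma phi_inj {θ : AddChar F ℂ} (hθ : θ ≠ 1) : Function.Injective (phi (n := n) θ) := by
  rw [← LinearMap.ker_eq_bot, LinearMap.ker_eq_bot']
  intro a ha
  funext q
  induction q using Quotient.inductionOn with
  | h nu =>
    have h1 : ∑ g : U n F, phi θ a (Quotient.mk _ g) * θ ((-nu) (sub1 g))
        = (Fintype.card (U n F) : ℂ) * a (Quotient.mk _ nu) := by
      simp only [phi_mk, Finset.sum_mul]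
      rw [Finset.sum_comm]
      have h2 : ∀ mu : Module.Dual F (Nil n F),
          ∑ g : U n F, a (Quotient.mk _ mu) * θ (mu (sub1 g)) * θ ((-nu) (sub1 g))
          = if mu = nu then (Fintype.card (U n F) : ℂ) * a (Quotient.mk _ nu) else 0 := by
        intro mu
        have h3 : ∀ g : U n F, a (Quotient.mk _ mu) * θ (mu (sub1 g)) * θ ((-nu) (sub1 g))
            = a (Quotient.mk _ mu) * θ ((mu - nu) (sub1 g)) := by
          intro g
          rw [mul_assoc, ← AddChar.map_add_eq_mul]
          congr 2
          simp [sub_eq_add_neg]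
        simp only [h3]
        rw [← Finset.mul_sum, sum_U hθ]
        by_cases h : mu = nu
        · rw [if_pos h, if_pos (by rw [h, sub_self]), h]; ring
        · rw [if_neg h, if_neg (fun h' => h (sub_eq_zero.mp h')), mul_zero]
      rw [Finset.sum_congr rfl fun mu _ => h2 mu]
      simp
    rw [ha] at h1
    simp only [Pi.zero_apply, zero_mul, Finset.sum_const_zero] at h1
    rcases mul_eq_zero.mp h1.symm with h | h
    · exact absurd h cardU_ne
    · exact h

lemma psi_inv (θ : AddChar F ℂ) (b : Quotient (relK n F) → ℂ) (u v : U n F)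
    (mu : Module.Dual F (Nil n F)) :
    ∑ g : U n F, b (Quotient.mk _ g) * θ (mu (twoSided u v (sub1 g)))
      = ∑ g : U n F, b (Quotient.mk _ g) * θ (mu (sub1 g)) := by
  refine Finset.sum_bij' (fun g _ => ofNil (twoSided u v (sub1 g)))
    (fun g _ => ofNil (twoSided u⁻¹ v⁻¹ (sub1 g))) ?_ ?_ ?_ ?_ ?_
  · intro mu _; exact Finset.mem_univ _
  · intro mu _; exact Finset.mem_univ _
  · intro g _
    show ofNil (twoSided u⁻¹ v⁻¹ (sub1 (ofNil (twoSided u v (sub1 g))))) = g
    rw [sub1_ofNil, twoSided_comp, inv_mul_cancel, mul_inv_cancel, twoSided_one, ofNil_sub1]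
  · intro g _
    show ofNil (twoSided u v (sub1 (ofNil (twoSided u⁻¹ v⁻¹ (sub1 g))))) = g
    rw [sub1_ofNil, twoSided_comp, inv_mul_cancel, mul_inv_cancel, twoSided_one, ofNil_sub1]
  · intro g _
    have h : (Quotient.mk (relK n F) g) = Quotient.mk _ (ofNil (twoSided u v (sub1 g))) :=
      Quotient.sound (relK_iff.mpr ⟨u, v, by rw [sub1_ofNil]⟩)
    rw [h, sub1_ofNil]

/-- transform of a function on the superclasses -/
def psi (θ : AddChar F ℂ) : (Quotient (relK n F) → ℂ) →ₗ[ℂ] (Quotient (relD n F) → ℂ) where
  toFun b := Quotient.lift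
    (fun mu : Module.Dual F (Nil n F) => ∑ g : U n F, b (Quotient.mk _ g) * θ (mu (sub1 g))) (by
      intro mu nu hmn
      obtain ⟨u, v, e⟩ := hmn
      show ∑ g : U n F, b (Quotient.mk _ g) * θ (mu (sub1 g))
        = ∑ g : U n F, b (Quotient.mk _ g) * θ (nu (sub1 g))
      simp only [e]
      rw [psi_inv])
  map_add' a b := by
    funext q
    induction q using Quotient.inductionOn with
    | h g =>
      simp only [Quotient.lift_mk, Pi.add_apply, add_mul, Finset.sum_add_distrib]
  map_smul' c a := by
    funext q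
    induction q using Quotient.inductionOn with
    | h g =>
      simp only [Quotient.lift_mk, Pi.smul_apply, smul_eq_mul, mul_assoc, Finset.mul_sum,
        RingHom.id_apply]

lemma psi_mk (θ : AddChar F ℂ) (b : Quotient (relK n F) → ℂ) (mu : Module.Dual F (Nil n F)) :
    psi θ b (Quotient.mk _ mu)
      = ∑ g : U n F, b (Quotient.mk _ g) * θ (mu (sub1 g)) := rfl

lemma psi_inj' {θ : AddChar F ℂ} (hθ : θ ≠ 1) : Function.Injective (psi (n := n) θ) := by
  rw [← LinearMap.ker_eq_bot, LinearMap.ker_eq_bot']
  intro b hb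
  funext q
  induction q using Quotient.inductionOn with
  | h k =>
    have h1 : ∑ mu : Module.Dual F (Nil n F), psi θ b (Quotient.mk _ mu) * θ (-(mu (sub1 k)))
        = (Fintype.card (Module.Dual F (Nil n F)) : ℂ) * b (Quotient.mk _ k) := by
      simp only [psi_mk, Finset.sum_mul]
      rw [Finset.sum_comm]
      have h2 : ∀ g : U n F,
          ∑ mu : Module.Dual F (Nil n F),
            b (Quotient.mk _ g) * θ (mu (sub1 g)) * θ (-(mu (sub1 k)))
          = if g = k then (Fintype.card (Module.Dual F (Nil n F)) : ℂ) * b (Quotient.mk _ k)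
            else 0 := by
        intro g
        have h3 : ∀ mu : Module.Dual F (Nil n F),
            b (Quotient.mk _ g) * θ (mu (sub1 g)) * θ (-(mu (sub1 k)))
            = b (Quotient.mk _ g) * θ (mu (sub1 g - sub1 k)) := by
          intro mu
          rw [mul_assoc, ← AddChar.map_add_eq_mul]
          congr 2
          simp [sub_eq_add_neg]
        simp only [h3]
        rw [← Finset.mul_sum, sum_dual hθ]
        by_cases h : g = k
        · rw [if_pos h, if_pos (by rw [h, sub_self]), h]; ring
        · rw [if_neg h, if_neg, mul_zero]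
          intro h'
          apply h
          rw [← ofNil_sub1 g, ← ofNil_sub1 k, sub_eq_zero.mp h']
      rw [Finset.sum_congr rfl fun mu _ => h2 mu]
      simp
    rw [hb] at h1
    simp only [Pi.zero_apply, zero_mul, Finset.sum_const_zero] at h1
    rcases mul_eq_zero.mp h1.symm with h | h
    · rw [card_dual] at h
      exact absurd h cardU_ne
    · exact h

lemma card_relD_relK {θ : AddChar F ℂ} (hθ : θ ≠ 1) :
    Nat.card (Quotient (relD n F)) = Nat.card (Quotient (relK n F)) := by
  letI : Fintype (Quotient (relD n F)) := Fintype.ofFinite _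
  letI : Fintype (Quotient (relK n F)) := Fintype.ofFinite _
  have h1 := LinearMap.finrank_le_finrank_of_injective (phi_inj (n := n) hθ)
  have h2 := LinearMap.finrank_le_finrank_of_injective (psi_inj' (n := n) hθ)
  rw [Module.finrank_fintype_fun_eq_card, Module.finrank_fintype_fun_eq_card] at h1 h2
  rw [Nat.card_eq_fintype_card, Nat.card_eq_fintype_card]
  exact le_antisymm h1 h2

/-- the orbit of functionals attached to an irreducible character -/
def orbitOf {θ : AddChar F ℂ} (hθ : θ ≠ 1) (ψ : IrrCh (U n F)) : Quotient (relD n F) :=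
  Quotient.mk _ (exists_orbit hθ ψ.2).choose

lemma orbitOf_spec {θ : AddChar F ℂ} (hθ : θ ≠ 1) (ψ : IrrCh (U n F))
    (lam : Module.Dual F (Nil n F)) :
    orbitOf hθ ψ = Quotient.mk _ lam ↔ B (orbitSum θ lam) ψ.1 ≠ 0 := by
  have hs := (exists_orbit hθ ψ.2).choose_spec
  constructor
  · intro h
    have h1 : lam ∈ dualOrbit (exists_orbit hθ ψ.2).choose := Quotient.exact h
    have : orbitSum θ lam = orbitSum θ (exists_orbit hθ ψ.2).choose := by
      funext g; rw [orbitSum_eq, orbitSum_eq, Of_eq h1]
    rw [this]; exact hs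
  · intro h
    exact Quotient.sound (B_orbitSum_disj hθ ψ.2 hs h)

lemma card_relX_relD {θ : AddChar F ℂ} (hθ : θ ≠ 1) :
    Nat.card (Quotient (relX (n := n) θ)) = Nat.card (Quotient (relD n F)) := by
  have key : ∀ ψ φ : IrrCh (U n F), relX θ ψ φ ↔ orbitOf hθ ψ = orbitOf hθ φ := by
    intro ψ φ
    obtain ⟨lam, hlam⟩ := exists_orbit hθ φ.2
    rw [relX_iff hθ hlam, (orbitOf_spec hθ φ lam).mpr hlam, orbitOf_spec]
  apply Nat.card_congr
  refine Equiv.ofBijective (Quotient.lift (orbitOf hθ) fun a b hab => (key a b).mp hab) ⟨?_, ?_⟩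
  · intro a b hab
    induction a using Quotient.inductionOn with
    | h a =>
      induction b using Quotient.inductionOn with
      | h b => exact Quotient.sound ((key a b).mpr hab)
  · intro q
    induction q using Quotient.inductionOn with
    | h lam =>
      obtain ⟨ψ, hψ⟩ := exists_irr (θ := θ) lam
      exact ⟨Quotient.mk _ ψ, (orbitOf_spec hθ ψ lam).mpr hψ⟩

/-- André's supercharacter theory of `U_n(F)`. The superclasses are the sets
`{h : h - 1 ∈ U (g - 1) U}`, the supercharacters are the orbit sums over the two-sided orbits of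
linear functionals. -/
def andre (n : ℕ) {F : Type} [Field F] [Fintype F] {θ : AddChar F ℂ} (hθ : θ ≠ 1) :
    SupercharacterTheory (U n F) where
  X := relX θ
  K := relK n F
  card_eq := (card_relX_relD hθ).trans (card_relD_relK hθ)
  one_block := by
    intro g h
    obtain ⟨u, v, e⟩ := relK_iff.mp ((relK n F).symm h)
    rw [sub1_one, map_zero] at e
    rw [← ofNil_sub1 g, e, ← sub1_one, ofNil_sub1]
  const := by
    intro ψ g h hgh
    obtain ⟨lam, hlam⟩ := exists_orbit hθ ψ.2
    rw [superchar_eq hθ hlam]
    exact orbitSum_const θ lam (relK_iff.mp hgh)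

end Pool.Agent.R721.Andre
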