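import Pool.Agent.R721.Andre.Irred
import Pool.Agent.R721.Andre.Card

set_option linter.unusedSectionVars false

open scoped BigOperators Classical Matrix
open Pool.Agent.Helper884.IC

noncomputable section

namespace Pool.Agent.R721.Andre

variable {n : ℕ} {F : Type} [Field F] [Fintype F]

/-- `χ` is a single-box irreducible character of `U_n(F)`: up to a positive real scalar it is the
sum over the two-sided orbit of a functional `y ↦ a * y i j` with `i < j` and `a ≠ 0`. -/
def IsSingleBox (θ : AddChar F ℂ) (χ : IrrCh (U n F)) : Prop :=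
  ∃ (i j : Fin n) (a : F), i < j ∧ a ≠ 0 ∧
    ∃ c : ℝ, 0 < c ∧ ∀ g, χ.1 g = c * orbitSum θ (box i j a) g

theorem single_box_exists {θ : AddChar F ℂ} (hθ : θ ≠ 1) {i j : Fin n} (hij : i < j) {a : F}
    (ha : a ≠ 0) :
    ∃ χ : IrrCh (U n F), B (orbitSum θ (box i j a)) χ.1 ≠ 0 ∧
      orbitSum θ (box i j a) = χ.1 1 • χ.1 := by
  obtain ⟨ψ, hψ⟩ := exists_irr (θ := θ) (box (n := n) i j a)
  refine ⟨ψ, hψ, ?_⟩
  have h1 := expand (orbitSum θ (box i j a)) (orbitSum_class θ _)
  rw [Finset.sum_eq_single ψ.1] at h1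
  · rcases B_orbitSum hθ (box i j a) ψ.2 with h2 | h2
    · exact absurd h2 hψ
    · rw [h2] at h1; exact h1
  · intro φ hφ hne
    have h2 : B (orbitSum θ (box i j a)) φ = 0 := by
      by_contra h3
      exact hne (single_box_unique hθ hij ha (mem_Irr.mp hφ) ψ.2 h3 hψ)
    rw [h2, zero_smul]
  · intro h; exact absurd (mem_Irr.mpr ψ.2) h

lemma contains_superchar {G : Type} [Group G] (T : SupercharacterTheory G) {χ : IrrCh G}
    (h : T.Contains χ) (g : G) : superchar T.X χ g = χ.1 1 * χ.1 g := by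
  unfold superchar
  have : {φ : IrrCh G | T.X φ χ} = {χ} := by
    ext φ
    simp only [Set.mem_setOf_eq, Set.mem_singleton_iff]
    exact ⟨fun h' => h φ h', fun h' => h' ▸ T.X.refl χ⟩
  rw [this, finsum_mem_singleton]

lemma contains_const {G : Type} [Group G] [Fintype G] (T : SupercharacterTheory G) {χ : IrrCh G}
    (h : T.Contains χ) {g k : G} (hgk : T.K g k) : χ.1 g = χ.1 k := by
  have h1 := T.const χ g k hgk
  rw [contains_superchar T h, contains_superchar T h] at h1
  exact mul_left_cancel₀ (irr_one_ne χ.2) h1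

/-- the superclasses of a theory containing the single-box characters refine André's -/
theorem finer_K {θ : AddChar F ℂ} (hθ : θ ≠ 1) (T : SupercharacterTheory (U n F))
    (hT : ∀ χ : IrrCh (U n F), IsSingleBox θ χ → T.Contains χ) : T.K ≤ relK n F := by
  intro g h hgh
  have key : ∀ i j : Fin n, i < j → ∀ a : F, a ≠ 0 →
      orbitSum θ (box i j a) g = orbitSum θ (box i j a) h := by
    intro i j hij a ha
    obtain ⟨χ, hχ, e⟩ := single_box_exists hθ hij ha
    have hsb : IsSingleBox θ χ := by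
      obtain ⟨d, hd, hd1⟩ := irr_one χ.2
      refine ⟨i, j, a, hij, ha, (d : ℝ)⁻¹, inv_pos.mpr (by exact_mod_cast hd), fun k => ?_⟩
      rw [e, hd1]
      simp only [Pi.smul_apply, smul_eq_mul]
      have : (d : ℂ) ≠ 0 := by exact_mod_cast hd.ne'
      push_cast
      field_simp
    have h1 := contains_const T (hT χ hsb) hgh
    rw [e]
    simp only [Pi.smul_apply, smul_eq_mul]
    rw [h1]
  obtain ⟨u, v, hz⟩ := exists_pp (sub1 g)
  obtain ⟨u', v', hz'⟩ := exists_pp (sub1 h)
  have heq : twoSided u v (sub1 g) = twoSided u' v' (sub1 h) := by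
    apply pp_sep hθ _ _ hz hz'
    intro i j hij a ha
    rw [sum_Of_twoSided, sum_Of_twoSided, ← orbitSum_eq, ← orbitSum_eq]
    exact key i j hij a ha
  rw [relK_iff]
  refine ⟨u'⁻¹ * u, v * v'⁻¹, ?_⟩
  rw [← twoSided_comp, heq, twoSided_comp, inv_mul_cancel, mul_inv_cancel, twoSided_one]

section dual

variable {G : Type} [Group G] [Fintype G]

instance : Finite (IrrCh G) := (irr_finite (G := G)).to_subtype

instance : Fintype (IrrCh G) := Fintype.ofFinite _

lemma superchar_sum (X : Setoid (IrrCh G)) (ψ : IrrCh G) (g : G) :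
    superchar X ψ g = ∑ φ : IrrCh G, if X φ ψ then φ.1 1 * φ.1 g else 0 := by
  unfold superchar
  rw [finsum_mem_def, finsum_eq_sum_of_fintype]
  refine Finset.sum_congr rfl fun φ _ => ?_
  by_cases h : X φ ψ
  · rw [if_pos h, Set.indicator_of_mem (by exact h)]
  · rw [if_neg h, Set.indicator_of_notMem (by exact h)]

/-- linear map from functions on blocks of characters to functions on superclasses -/
def spanMap (T : SupercharacterTheory G) :
    (Quotient T.X → ℂ) →ₗ[ℂ] (Quotient T.K → ℂ) where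
  toFun c := Quotient.lift
    (fun g : G => ∑ φ : IrrCh G, c (Quotient.mk _ φ) * (φ.1 1 * φ.1 g)) (by
      intro g h hgh
      show ∑ φ : IrrCh G, c (Quotient.mk _ φ) * (φ.1 1 * φ.1 g)
        = ∑ φ : IrrCh G, c (Quotient.mk _ φ) * (φ.1 1 * φ.1 h)
      letI : Fintype (Quotient T.X) := Fintype.ofFinite _
      have key : ∀ k : G, ∑ φ : IrrCh G, c (Quotient.mk T.X φ) * (φ.1 1 * φ.1 k)
          = ∑ q : Quotient T.X, c q * superchar T.X q.out k := by
        intro k
        rw [← Finset.sum_fiberwise Finset.univ (fun φ : IrrCh G => Quotient.mk T.X φ)]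
        refine Finset.sum_congr rfl fun q _ => ?_
        rw [superchar_sum, Finset.mul_sum, Finset.sum_filter]
        refine Finset.sum_congr rfl fun φ _ => ?_
        by_cases hq : Quotient.mk T.X φ = q
        · have h1 : T.X φ q.out := Quotient.exact (by rw [Quotient.out_eq]; exact hq)
          rw [if_pos hq, if_pos h1, hq]
        · have h1 : ¬ T.X φ q.out := by
            intro h'
            apply hq
            rw [← Quotient.out_eq q]
            exact Quotient.sound h'
          rw [if_neg hq, if_neg h1, mul_zero]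
      rw [key, key]
      refine Finset.sum_congr rfl fun q _ => ?_
      rw [T.const q.out g h hgh])
  map_add' a b := by
    funext q
    induction q using Quotient.inductionOn with
    | h g =>
      simp only [Quotient.lift_mk, Pi.add_apply, add_mul, Finset.sum_add_distrib]
  map_smul' c a := by
    funext q
    induction q using Quotient.inductionOn with
    | h g =>
      simp only [Quotient.lift_mk, Pi.smul_apply, smul_eq_mul, mul_assoc, Finset.mul_sum,
        RingHom.id_apply]

lemma spanMap_mk (T : SupercharacterTheory G) (c : Quotient T.X → ℂ) (g : G) :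
    spanMap T c (Quotient.mk _ g) = ∑ φ : IrrCh G, c (Quotient.mk _ φ) * (φ.1 1 * φ.1 g) := rfl

lemma B_expansion (a : IrrCh G → ℂ) (ψ : IrrCh G) :
    B (fun g => ∑ φ : IrrCh G, a φ * (φ.1 1 * φ.1 g)) ψ.1 = a ψ * ψ.1 1 := by
  have h1 : (fun g => ∑ φ : IrrCh G, a φ * (φ.1 1 * φ.1 g))
      = ∑ φ : IrrCh G, (a φ * φ.1 1) • φ.1 := by
    funext g
    rw [Finset.sum_apply]
    refine Finset.sum_congr rfl fun φ _ => ?_
    simp only [Pi.smul_apply, smul_eq_mul]
    ring
  rw [h1, B_sum_left, Finset.sum_eq_single ψ]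
  · rw [B_smul_left, B_irr ψ.2 ψ.2, if_pos rfl, mul_one]
  · intro φ _ hne
    rw [B_smul_left, B_irr φ.2 ψ.2, if_neg (fun h => hne (Subtype.ext h)), mul_zero]
  · intro h; exact absurd (Finset.mem_univ _) h

lemma spanMap_inj (T : SupercharacterTheory G) : Function.Injective (spanMap T) := by
  rw [← LinearMap.ker_eq_bot, LinearMap.ker_eq_bot']
  intro c hc
  funext q
  induction q using Quotient.inductionOn with
  | h ψ =>
    have h1 : (fun g => ∑ φ : IrrCh G, c (Quotient.mk _ φ) * (φ.1 1 * φ.1 g)) = 0 := by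
      funext g
      rw [← spanMap_mk, hc]
      rfl
    have h2 := B_expansion (fun φ => c (Quotient.mk _ φ)) ψ
    rw [h1] at h2
    have h3 : B (0 : G → ℂ) ψ.1 = 0 := by simp [B]
    rw [h3] at h2
    rcases mul_eq_zero.mp h2.symm with h | h
    · exact h
    · exact absurd h (irr_one_ne ψ.2)

lemma spanMap_surj (T : SupercharacterTheory G) : Function.Surjective (spanMap T) := by
  letI : Fintype (Quotient T.X) := Fintype.ofFinite _
  letI : Fintype (Quotient T.K) := Fintype.ofFinite _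
  have h : Module.finrank ℂ (Quotient T.X → ℂ) = Module.finrank ℂ (Quotient T.K → ℂ) := by
    rw [Module.finrank_fintype_fun_eq_card, Module.finrank_fintype_fun_eq_card,
      ← Nat.card_eq_fintype_card, ← Nat.card_eq_fintype_card]
    exact T.card_eq
  exact (LinearMap.injective_iff_surjective_of_finrank_eq_finrank h).mp (spanMap_inj T)

/-- a function constant on superclasses has proportional multiplicities along blocks -/
lemma mult_block (T : SupercharacterTheory G) (f : G → ℂ) (hf : ∀ g h, T.K g h → f g = f h)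
    {ψ φ : IrrCh G} (h : T.X ψ φ) : B f ψ.1 ≠ 0 ↔ B f φ.1 ≠ 0 := by
  obtain ⟨c, hc⟩ := spanMap_surj T (Quotient.lift f hf)
  have h1 : f = fun g => ∑ φ : IrrCh G, c (Quotient.mk _ φ) * (φ.1 1 * φ.1 g) := by
    funext g
    rw [← spanMap_mk, hc]
    rfl
  have h2 : ∀ χ : IrrCh G, B f χ.1 = c (Quotient.mk _ χ) * χ.1 1 := by
    intro χ
    rw [h1]
    exact B_expansion _ χ
  have h3 : Quotient.mk T.X ψ = Quotient.mk T.X φ := Quotient.sound h
  rw [h2, h2, h3]
  have h4 := irr_one_ne ψ.2
  have h5 := irr_one_ne φ.2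
  constructor
  · intro h6
    exact mul_ne_zero (left_ne_zero_of_mul h6) h5
  · intro h6
    exact mul_ne_zero (left_ne_zero_of_mul h6) h4

end dual

theorem finer_X {θ : AddChar F ℂ} (hθ : θ ≠ 1) (T : SupercharacterTheory (U n F))
    (hT : ∀ χ : IrrCh (U n F), IsSingleBox θ χ → T.Contains χ) : T.X ≤ relX θ := by
  intro ψ φ h lam
  exact mult_block T (orbitSum θ lam)
    (fun g k hgk => orbitSum_const θ lam (relK_iff.mp (finer_K hθ T hT hgk))) h

theorem andre_contains {θ : AddChar F ℂ} (hθ : θ ≠ 1) (χ : IrrCh (U n F))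
    (h : IsSingleBox θ χ) : (andre n hθ).Contains χ := by
  obtain ⟨i, j, a, hij, ha, c, hc, e⟩ := h
  have h1 : B (orbitSum θ (box i j a)) χ.1 ≠ 0 := by
    have h2 : χ.1 = (c : ℂ) • orbitSum θ (box i j a) := by
      funext g; exact e g
    have h3 : B χ.1 χ.1 = 1 := by rw [B_irr χ.2 χ.2, if_pos rfl]
    have h4 : B χ.1 χ.1 = c * B (orbitSum θ (box i j a)) χ.1 := by
      conv_lhs => rw [show B χ.1 χ.1 = B ((c : ℂ) • orbitSum θ (box i j a)) χ.1 by rw [← h2]]
      rw [B_smul_left]
    intro h5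
    rw [h4, h5, mul_zero] at h3
    exact zero_ne_one h3
  intro ψ hψ
  have h2 : B (orbitSum θ (box i j a)) ψ.1 ≠ 0 := (hψ (box i j a)).mpr h1
  exact Subtype.ext (single_box_unique hθ hij ha ψ.2 χ.2 h2 h1)

theorem main (n : ℕ) (F : Type) [Field F] [Fintype F] (θ : AddChar F ℂ) (hθ : θ ≠ 1) :
    (∀ (i j : Fin n) (a : F), i < j → a ≠ 0 →
      ∃ χ : IrrCh (U n F), ∃ c : ℝ, 0 < c ∧ ∀ g, χ.1 g = c * orbitSum θ (box i j a) g) ∧
    ∃ A : SupercharacterTheory (U n F),
      (∀ g h : U n F, A.K g h ↔ ∃ u v : U n F, mat h - 1 = mat u * (mat g - 1) * mat v) ∧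
      (∀ ψ : IrrCh (U n F), ∃ lam, superchar A.X ψ = orbitSum θ lam) ∧
      (∀ lam, ∃ ψ : IrrCh (U n F), superchar A.X ψ = orbitSum θ lam) ∧
      (∀ χ : IrrCh (U n F), IsSingleBox θ χ → A.Contains χ) ∧
      (∀ T : SupercharacterTheory (U n F),
        (∀ χ : IrrCh (U n F), IsSingleBox θ χ → T.Contains χ) → T.K ≤ A.K ∧ T.X ≤ A.X) := by
  refine ⟨?_, andre n hθ, fun g h => Iff.rfl, ?_, ?_, andre_contains hθ, fun T hT =>
    ⟨finer_K hθ T hT, finer_X hθ T hT⟩⟩
  · intro i j a hij ha
    obtain ⟨χ, _, e⟩ := single_box_exists (θ := θ) hθ hij ha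
    obtain ⟨d, hd, hd1⟩ := irr_one χ.2
    refine ⟨χ, (d : ℝ)⁻¹, inv_pos.mpr (by exact_mod_cast hd), fun k => ?_⟩
    rw [e, hd1]
    simp only [Pi.smul_apply, smul_eq_mul]
    have : (d : ℂ) ≠ 0 := by exact_mod_cast hd.ne'
    push_cast
    field_simp
  · intro ψ
    obtain ⟨lam, hlam⟩ := exists_orbit hθ ψ.2
    exact ⟨lam, superchar_eq hθ hlam⟩
  · intro lam
    obtain ⟨ψ, hψ⟩ := exists_irr (θ := θ) lam
    exact ⟨ψ, superchar_eq hθ hψ⟩

end Pool.Agent.R721.Andre
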