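import Pool.Agent.R721.Andre.Basic

set_option linter.unusedSectionVars false

open scoped BigOperators Classical Matrix
open Pool.Agent.Helper884.IC

noncomputable section

namespace Pool.Agent.R721.Andre

variable {n : ℕ} {F : Type} [Field F] [Fintype F]

instance : Finite (Nil n F) := inferInstance
instance : Fintype (Nil n F) := Fintype.ofFinite _
instance : Finite (U n F) := inferInstance
instance : Fintype (U n F) := Fintype.ofFinite _
instance : Finite (Module.Dual F (Nil n F)) := DFunLike.finite _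
instance : Fintype (Module.Dual F (Nil n F)) := Fintype.ofFinite _

lemma twoSided_one (y : Nil n F) : twoSided (1 : U n F) 1 y = y := by
  apply Subtype.ext
  show mat (1 : U n F) * (y : Matrix (Fin n) (Fin n) F) * mat (1 : U n F) = _
  simp [mat_one]

lemma twoSided_comp (u v u' v' : U n F) (y : Nil n F) :
    twoSided u v (twoSided u' v' y) = twoSided (u * u') (v' * v) y := by
  apply Subtype.ext
  show mat u * (mat u' * (y : Matrix (Fin n) (Fin n) F) * mat v') * mat v
    = mat (u * u') * (y : Matrix (Fin n) (Fin n) F) * mat (v' * v)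
  rw [mat_mul, mat_mul]
  simp only [Matrix.mul_assoc]

/-- the equivalence between `U` and `Nil` -/
def ofNil (y : Nil n F) : U n F :=
  ⟨Matrix.GeneralLinearGroup.mkOfDetNeZero (1 + (y : Matrix (Fin n) (Fin n) F)) (by
      rw [Matrix.det_of_upperTriangular]
      · have : ∀ i : Fin n, (1 + (y : Matrix (Fin n) (Fin n) F)) i i = 1 := by
          intro i
          simp [Matrix.add_apply, y.2 i i le_rfl]
        simp [this]
      · intro i j hij
        have hij' : j < i := hij
        simp [Matrix.add_apply, y.2 i j hij'.le, Matrix.one_apply_ne (ne_of_gt hij')]), by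
    show (1 + (y : Matrix (Fin n) (Fin n) F)) - 1 ∈ Nil n F
    rw [add_sub_cancel_left]
    exact y.2⟩

lemma mat_ofNil (y : Nil n F) : mat (ofNil y) = 1 + (y : Matrix (Fin n) (Fin n) F) := rfl

lemma sub1_ofNil (y : Nil n F) : sub1 (ofNil y) = y := by
  apply Subtype.ext
  show (1 + (y : Matrix (Fin n) (Fin n) F)) - 1 = _
  rw [add_sub_cancel_left]

lemma ofNil_sub1 (g : U n F) : ofNil (sub1 g) = g := by
  apply mat_inj
  rw [mat_ofNil]
  show 1 + (mat g - 1) = mat g
  rw [add_sub_cancel]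

/-- `U ≃ Nil` by `g ↦ g - 1` -/
def subEquiv : U n F ≃ Nil n F where
  toFun := sub1
  invFun := ofNil
  left_inv := ofNil_sub1
  right_inv := sub1_ofNil

lemma sub1_one : sub1 (1 : U n F) = 0 := by
  apply Subtype.ext
  show mat (1 : U n F) - 1 = 0
  simp [mat_one]

lemma card_U_eq : Fintype.card (U n F) = Fintype.card (Nil n F) :=
  Fintype.card_congr subEquiv

/-- orbit as finset -/
def Of (lam : Module.Dual F (Nil n F)) : Finset (Module.Dual F (Nil n F)) :=
  Finset.univ.filter (· ∈ dualOrbit lam)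

lemma mem_Of {lam mu : Module.Dual F (Nil n F)} : mu ∈ Of lam ↔ mu ∈ dualOrbit lam := by
  simp [Of]

lemma orbitSum_eq (θ : AddChar F ℂ) (lam : Module.Dual F (Nil n F)) (g : U n F) :
    orbitSum θ lam g = ∑ mu ∈ Of lam, θ (mu (sub1 g)) := by
  unfold orbitSum
  rw [finsum_mem_eq_sum_of_inter_support_eq]
  ext mu
  simp [Of]

lemma self_mem (lam : Module.Dual F (Nil n F)) : lam ∈ dualOrbit lam :=
  ⟨1, 1, fun y => by rw [twoSided_one]⟩

lemma orbit_symm {lam mu : Module.Dual F (Nil n F)} (h : mu ∈ dualOrbit lam) :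
    lam ∈ dualOrbit mu := by
  obtain ⟨u, v, h⟩ := h
  refine ⟨u⁻¹, v⁻¹, fun y => ?_⟩
  rw [h, twoSided_comp, mul_inv_cancel, inv_mul_cancel, twoSided_one]

lemma orbit_trans {lam mu nu : Module.Dual F (Nil n F)} (h : mu ∈ dualOrbit lam)
    (h' : nu ∈ dualOrbit mu) : nu ∈ dualOrbit lam := by
  obtain ⟨u, v, h⟩ := h
  obtain ⟨u', v', h'⟩ := h'
  refine ⟨u * u', v' * v, fun y => ?_⟩
  rw [h', h, twoSided_comp]

lemma orbit_eq_iff {lam mu : Module.Dual F (Nil n F)} :
    dualOrbit lam = dualOrbit mu ↔ mu ∈ dualOrbit lam := by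
  constructor
  · intro h; rw [h]; exact self_mem mu
  · intro h
    ext nu
    exact ⟨fun h' => orbit_trans (orbit_symm h) h', fun h' => orbit_trans h h'⟩

/-- the dual map -/
def dualTwo (u v : U n F) (mu : Module.Dual F (Nil n F)) : Module.Dual F (Nil n F) :=
  mu.comp (twoSided u v)

lemma dualTwo_apply (u v : U n F) (mu : Module.Dual F (Nil n F)) (y : Nil n F) :
    dualTwo u v mu y = mu (twoSided u v y) := rfl

lemma sum_Of_twoSided (θ : AddChar F ℂ) (lam : Module.Dual F (Nil n F)) (u v : U n F)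
    (z : Nil n F) :
    ∑ mu ∈ Of lam, θ (mu (twoSided u v z)) = ∑ mu ∈ Of lam, θ (mu z) := by
  refine Finset.sum_bij' (fun mu _ => dualTwo u v mu) (fun mu _ => dualTwo u⁻¹ v⁻¹ mu) ?_ ?_ ?_ ?_ ?_
  · intro mu hmu
    rw [mem_Of] at hmu ⊢
    exact orbit_trans hmu ⟨u, v, fun y => rfl⟩
  · intro mu hmu
    rw [mem_Of] at hmu ⊢
    exact orbit_trans hmu ⟨u⁻¹, v⁻¹, fun y => rfl⟩
  · intro mu _
    ext y
    rw [dualTwo_apply, dualTwo_apply, twoSided_comp, mul_inv_cancel, inv_mul_cancel, twoSided_one]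
  · intro mu _
    ext y
    rw [dualTwo_apply, dualTwo_apply, twoSided_comp, inv_mul_cancel, mul_inv_cancel, twoSided_one]
  · intro mu _
    rfl

/-- orthogonality, sum over matrices -/
lemma sum_nil {θ : AddChar F ℂ} (hθ : θ ≠ 1) (mu : Module.Dual F (Nil n F)) :
    ∑ y : Nil n F, θ (mu y) = if mu = 0 then (Fintype.card (Nil n F) : ℂ) else 0 := by
  by_cases h : mu = 0
  · rw [if_pos h, h]
    simp
  · rw [if_neg h]
    let ψ : AddChar (Nil n F) ℂ := θ.compAddMonoidHom (mu : Nil n F →+ F)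
    have hψ : ψ ≠ 1 := by
      intro h1
      apply hθ
      obtain ⟨y, hy⟩ : ∃ y, mu y ≠ 0 := by
        by_contra hc
        push Not at hc
        exact h (LinearMap.ext hc)
      ext a
      have h2 := DFunLike.congr_fun h1 ((a * (mu y)⁻¹) • y)
      have h3 : ψ ((a * (mu y)⁻¹) • y) = θ a := by
        show θ (mu ((a * (mu y)⁻¹) • y)) = θ a
        rw [map_smul, smul_eq_mul, mul_assoc, inv_mul_cancel₀ hy, mul_one]
      rw [h3] at h2
      exact h2
    exact AddChar.sum_eq_zero_of_ne_one hψ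

lemma sum_U {θ : AddChar F ℂ} (hθ : θ ≠ 1) (mu : Module.Dual F (Nil n F)) :
    ∑ x : U n F, θ (mu (sub1 x)) = if mu = 0 then (Fintype.card (U n F) : ℂ) else 0 := by
  rw [card_U_eq, ← sum_nil hθ mu]
  exact Fintype.sum_equiv subEquiv _ _ fun _ => rfl

/-- orthogonality, sum over functionals -/
lemma sum_dual {θ : AddChar F ℂ} (hθ : θ ≠ 1) (y : Nil n F) :
    ∑ mu : Module.Dual F (Nil n F), θ (mu y)
      = if y = 0 then (Fintype.card (Module.Dual F (Nil n F)) : ℂ) else 0 := by
  by_cases h : y = 0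
  · rw [if_pos h, h]
    simp
  · rw [if_neg h]
    let ψ : AddChar (Module.Dual F (Nil n F)) ℂ :=
      θ.compAddMonoidHom ((Module.Dual.eval F (Nil n F) y : Module.Dual F (Nil n F) →ₗ[F] F) :
        Module.Dual F (Nil n F) →+ F)
    have hψ : ψ ≠ 1 := by
      intro h1
      apply hθ
      obtain ⟨mu, hmu⟩ : ∃ mu : Module.Dual F (Nil n F), mu y ≠ 0 := by
        by_contra hc
        push Not at hc
        exact h ((Module.forall_dual_apply_eq_zero_iff F y).mp hc)
      ext a
      have h2 := DFunLike.congr_fun h1 ((a * (mu y)⁻¹) • mu)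
      have h3 : ψ ((a * (mu y)⁻¹) • mu) = θ a := by
        show θ (((a * (mu y)⁻¹) • mu) y) = θ a
        rw [LinearMap.smul_apply, smul_eq_mul, mul_assoc, inv_mul_cancel₀ hmu, mul_one]
      rw [h3] at h2
      exact h2
    exact AddChar.sum_eq_zero_of_ne_one hψ

lemma card_dual : Fintype.card (Module.Dual F (Nil n F)) = Fintype.card (U n F) := by
  rw [card_U_eq]
  have h1 := Module.card_eq_pow_finrank (K := F) (V := Nil n F)
  have h2 := Module.card_eq_pow_finrank (K := F) (V := Module.Dual F (Nil n F))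
  rw [h1, h2, Subspace.dual_finrank_eq]

lemma sub1_inv_mul (x g : U n F) : sub1 (x⁻¹ * g) = twoSided x⁻¹ 1 (sub1 g - sub1 x) := by
  apply Subtype.ext
  show mat (x⁻¹ * g) - 1 = mat x⁻¹ * ((mat g - 1) - (mat x - 1)) * mat (1 : U n F)
  rw [mat_mul, mat_one, mul_one]
  have h : mat x⁻¹ * mat x = 1 := by
    rw [← mat_mul, inv_mul_cancel, mat_one]
  calc mat x⁻¹ * mat g - 1 = mat x⁻¹ * mat g - mat x⁻¹ * mat x := by rw [h]
    _ = mat x⁻¹ * ((mat g - 1) - (mat x - 1)) := by noncomm_ring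

/-- the orbit sums are orthogonal multiples of idempotents under convolution -/
theorem conv_orbitSum {θ : AddChar F ℂ} (hθ : θ ≠ 1) (lam nu : Module.Dual F (Nil n F))
    (g : U n F) :
    ∑ x : U n F, orbitSum θ lam x * orbitSum θ nu (x⁻¹ * g)
      = if nu ∈ dualOrbit lam then (Fintype.card (U n F) : ℂ) * orbitSum θ lam g else 0 := by
  have h1 : ∀ x : U n F, orbitSum θ lam x * orbitSum θ nu (x⁻¹ * g)
      = ∑ mu ∈ Of lam, ∑ ka ∈ Of nu, θ (ka (sub1 g)) * θ ((mu - ka) (sub1 x)) := by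
    intro x
    rw [orbitSum_eq, orbitSum_eq, sub1_inv_mul, sum_Of_twoSided, Finset.sum_mul_sum]
    refine Finset.sum_congr rfl fun mu _ => Finset.sum_congr rfl fun ka _ => ?_
    rw [← AddChar.map_add_eq_mul, ← AddChar.map_add_eq_mul]
    congr 1
    simp only [map_sub, LinearMap.sub_apply]
    ring
  simp only [h1]
  rw [Finset.sum_comm]
  have h2 : ∀ mu ∈ Of lam, ∑ x : U n F, ∑ ka ∈ Of nu, θ (ka (sub1 g)) * θ ((mu - ka) (sub1 x))
      = if mu ∈ Of nu then (Fintype.card (U n F) : ℂ) * θ (mu (sub1 g)) else 0 := by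
    intro mu _
    rw [Finset.sum_comm]
    have h3 : ∀ ka ∈ Of nu, ∑ x : U n F, θ (ka (sub1 g)) * θ ((mu - ka) (sub1 x))
        = if ka = mu then (Fintype.card (U n F) : ℂ) * θ (mu (sub1 g)) else 0 := by
      intro ka _
      rw [← Finset.mul_sum, sum_U hθ]
      by_cases h : ka = mu
      · rw [if_pos h, if_pos (by rw [h, sub_self]), h]; ring
      · rw [if_neg h, if_neg (fun h' => h (sub_eq_zero.mp h').symm), mul_zero]
    rw [Finset.sum_congr rfl h3, Finset.sum_ite_eq']
  rw [Finset.sum_congr rfl h2]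
  by_cases h : nu ∈ dualOrbit lam
  · rw [if_pos h, orbitSum_eq, Finset.mul_sum]
    refine Finset.sum_congr rfl fun mu hmu => ?_
    rw [if_pos]
    rw [mem_Of] at hmu ⊢
    exact orbit_trans (orbit_symm h) hmu
  · rw [if_neg h]
    refine Finset.sum_eq_zero fun mu hmu => ?_
    rw [if_neg]
    rw [mem_Of] at hmu ⊢
    intro h'
    exact h (orbit_trans hmu (orbit_symm h'))

lemma orbitSum_class (θ : AddChar F ℂ) (lam : Module.Dual F (Nil n F)) :
    IsClass (orbitSum θ lam) := by
  intro g y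
  rw [orbitSum_eq, orbitSum_eq, ← sum_Of_twoSided θ lam y y⁻¹ (sub1 g)]
  have h : sub1 (y * g * y⁻¹) = twoSided y y⁻¹ (sub1 g) := by
    apply Subtype.ext
    show mat (y * g * y⁻¹) - 1 = mat y * (mat g - 1) * mat y⁻¹
    rw [mat_mul, mat_mul]
    have h : mat y * mat y⁻¹ = 1 := by rw [← mat_mul, mul_inv_cancel, mat_one]
    rw [mul_sub, sub_mul, mul_one, h]
  rw [h]

lemma orbitSum_const (θ : AddChar F ℂ) (lam : Module.Dual F (Nil n F)) {g h : U n F}
    (hgh : ∃ u v : U n F, sub1 h = twoSided u v (sub1 g)) : orbitSum θ lam g = orbitSum θ lam h := by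
  obtain ⟨u, v, e⟩ := hgh
  rw [orbitSum_eq, orbitSum_eq, e, sum_Of_twoSided]

lemma orbitSum_one (θ : AddChar F ℂ) (lam : Module.Dual F (Nil n F)) :
    orbitSum θ lam 1 = ((Of lam).card : ℂ) := by
  rw [orbitSum_eq, sub1_one]
  simp

end Pool.Agent.R721.Andre
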