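import Pool.Agent.R721.Andre.Fourier

set_option linter.unusedSectionVars false

open scoped BigOperators Classical Matrix
open Pool.Agent.Helper884.IC

noncomputable section

namespace Pool.Agent.R721.Andre

section general

variable {G : Type} [Group G] [Fintype G]

lemma Top_mul {V : Type} [AddCommGroup V] [Module ℂ V] (rho : Representation ℂ G V)
    (f h : G → ℂ) :
    Top rho f ∘ₗ Top rho h = Top rho (fun k => ∑ b : G, h b * f (b⁻¹ * k)) := by
  apply LinearMap.ext
  intro v
  simp only [Helper884.IC.Top, LinearMap.comp_apply, LinearMap.sum_apply, LinearMap.smul_apply, map_sum,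
    map_smul, Finset.smul_sum, Finset.sum_smul]
  rw [Finset.sum_comm (γ := G) (f := fun (x i : G) => (h i * f (i⁻¹ * x)) • (rho x⁻¹) v)]
  refine Finset.sum_congr rfl fun b _ => ?_
  refine Fintype.sum_equiv (Equiv.mulLeft b) _ _ fun a => ?_
  simp only [Equiv.coe_mulLeft, inv_mul_cancel_left]
  rw [smul_smul]
  congr 1
  rw [mul_inv_rev, map_mul]
  rfl

lemma Top_scalar {V : Type} [AddCommGroup V] [Module ℂ V] [FiniteDimensional ℂ V]
    (rho : Representation ℂ G V) [hirr : rho.IsIrreducible] (f : G → ℂ) (hf : IsClass f) :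
    ∃ c : ℂ, Top rho f = c • LinearMap.id := by
  have hcomm : ∀ (h : G) (v : V), Top rho f (rho h v) = rho h (Top rho f v) := by
    intro h v
    simp only [Helper884.IC.Top, LinearMap.sum_apply, LinearMap.smul_apply, map_sum, map_smul]
    have : ∀ g : G, rho g⁻¹ (rho h v) = rho h (rho (h⁻¹ * g⁻¹ * h) v) := by
      intro g
      rw [← Module.End.mul_apply, ← Module.End.mul_apply, ← map_mul, ← map_mul]
      congr 2
      group
    simp_rw [this]
    refine Fintype.sum_equiv (MulAut.conj h⁻¹).toEquiv _ _ ?_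
    intro g
    have e1 : (MulAut.conj h⁻¹).toEquiv g = h⁻¹ * g * h := by simp
    rw [e1]
    have h1 : f (h⁻¹ * g * h) = f g := by
      have := hf g h⁻¹
      simpa using this
    rw [h1]
    congr 4
    group
  let T : Representation.IntertwiningMap rho rho :=
    (Top rho f).intertwiningMap_of_isIntertwiningMap rho rho hcomm
  obtain ⟨c, hc⟩ := (Representation.IsIrreducible.algebraMap_intertwiningMap_bijective_of_isAlgClosed
    (ρ := rho)).2 T
  refine ⟨c, ?_⟩
  ext v
  have := congrArg (fun S : Representation.IntertwiningMap rho rho => S v) hc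
  have h2 : T v = Top rho f v := rfl
  rw [← h2]
  exact this.symm

lemma Top_trace {V : Type} [AddCommGroup V] [Module ℂ V] [FiniteDimensional ℂ V]
    (rho : Representation ℂ G V) (f : G → ℂ) :
    LinearMap.trace ℂ V (Top rho f) = (Nat.card G : ℂ) * B f rho.character := by
  have htr : LinearMap.trace ℂ V (Top rho f) = ∑ g : G, f g * rho.character g⁻¹ := by
    simp [Helper884.IC.Top, Representation.character]
  rw [htr, B, ← mul_assoc, mul_inv_cancel₀ cardG_ne, one_mul]

lemma nontrivial_of_irr {V : Type} [AddCommGroup V] [Module ℂ V]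
    (rho : Representation ℂ G V) [hirr : rho.IsIrreducible] : Nontrivial V := by
  by_contra hn
  rw [not_nontrivial_iff_subsingleton] at hn
  have : Subsingleton (Subrepresentation rho) := by
    constructor
    intro a b
    ext x
    have : x = 0 := Subsingleton.elim _ _
    subst this
    simp
  have h5 := hirr.toNontrivial
  exact not_subsingleton (Subrepresentation rho) this

/-- the degree of an irreducible character is a positive natural number -/
lemma irr_one {chi : G → ℂ} (h : IsIrrChar chi) : ∃ d : ℕ, 0 < d ∧ chi 1 = d := by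
  obtain ⟨V, _, _, _, rho, hr, rfl⟩ := h
  haveI := nontrivial_of_irr rho
  exact ⟨Module.finrank ℂ V, Module.finrank_pos, by simp [Representation.character]⟩

lemma irr_one_ne {chi : G → ℂ} (h : IsIrrChar chi) : chi 1 ≠ 0 := by
  obtain ⟨d, hd, e⟩ := irr_one h
  rw [e]
  exact_mod_cast hd.ne'

/-- Two class functions whose convolution is known: the product of the central characters. -/
lemma B_mul_conv {f h : G → ℂ} (hf : IsClass f) (hh : IsClass h) {chi : G → ℂ}
    (hc : IsIrrChar chi) :
    (Nat.card G : ℂ) * (B f chi * B h chi)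
      = chi 1 * B (fun k => ∑ b : G, h b * f (b⁻¹ * k)) chi := by
  obtain ⟨V, _, _, _, rho, hr, rfl⟩ := hc
  obtain ⟨c, hc⟩ := Top_scalar rho f hf
  obtain ⟨d, hd⟩ := Top_scalar rho h hh
  have h1 := Top_mul rho f h
  have h2 := Top_trace rho f
  have h3 := Top_trace rho h
  have h4 := Top_trace rho (fun k => ∑ b : G, h b * f (b⁻¹ * k))
  have hone : rho.character 1 = (Module.finrank ℂ V : ℂ) := by simp [Representation.character]
  rw [← h1, hc, hd] at h4
  rw [hc] at h2
  rw [hd] at h3
  have e1 : (c • (LinearMap.id : V →ₗ[ℂ] V)) ∘ₗ (d • (LinearMap.id : V →ₗ[ℂ] V))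
      = (c * d) • (LinearMap.id : V →ₗ[ℂ] V) := by
    ext v; simp [smul_smul]
  rw [e1] at h4
  simp only [map_smul, LinearMap.trace_id, smul_eq_mul] at h2 h3 h4
  rw [hone]
  have hG : (Nat.card G : ℂ) ≠ 0 := cardG_ne
  have : (Nat.card G : ℂ) * ((Nat.card G : ℂ) * (B f rho.character * B h rho.character))
      = (Nat.card G : ℂ) * ((Module.finrank ℂ V : ℂ) *
        B (fun k => ∑ b : G, h b * f (b⁻¹ * k)) rho.character) := by
    calc _ = ((Nat.card G : ℂ) * B f rho.character) * ((Nat.card G : ℂ) * B h rho.character) := by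
            ring
      _ = (c * Module.finrank ℂ V) * (d * Module.finrank ℂ V) := by rw [← h2, ← h3]
      _ = (Module.finrank ℂ V : ℂ) * (c * d * Module.finrank ℂ V) := by ring
      _ = (Module.finrank ℂ V : ℂ) * ((Nat.card G : ℂ) *
          B (fun k => ∑ b : G, h b * f (b⁻¹ * k)) rho.character) := by rw [h4]
      _ = _ := by ring
  exact mul_left_cancel₀ hG this

end general

variable {n : ℕ} {F : Type} [Field F] [Fintype F]

lemma natcard_U : (Nat.card (U n F) : ℂ) = (Fintype.card (U n F) : ℂ) := by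
  rw [Nat.card_eq_fintype_card]

lemma cardU_ne : (Fintype.card (U n F) : ℂ) ≠ 0 := by
  rw [← natcard_U]; exact cardG_ne

/-- every orbit sum has multiplicity `0` or `ψ(1)` in an irreducible character -/
lemma B_orbitSum {θ : AddChar F ℂ} (hθ : θ ≠ 1) (lam : Module.Dual F (Nil n F))
    {psi : U n F → ℂ} (h : IsIrrChar psi) :
    B (orbitSum θ lam) psi = 0 ∨ B (orbitSum θ lam) psi = psi 1 := by
  have h1 := B_mul_conv (orbitSum_class θ lam) (orbitSum_class θ lam) h
  have h2 : (fun k => ∑ b : U n F, orbitSum θ lam b * orbitSum θ lam (b⁻¹ * k))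
      = (Fintype.card (U n F) : ℂ) • orbitSum θ lam := by
    funext k
    rw [conv_orbitSum hθ, if_pos (self_mem lam)]
    rfl
  rw [h2, B_smul_left, natcard_U] at h1
  have h3 : B (orbitSum θ lam) psi * (B (orbitSum θ lam) psi - psi 1) = 0 := by
    have : (Fintype.card (U n F) : ℂ) *
        (B (orbitSum θ lam) psi * (B (orbitSum θ lam) psi - psi 1)) = 0 := by
      linear_combination h1
    rcases mul_eq_zero.mp this with h | h
    · exact absurd h cardU_ne
    · exact h
  rcases mul_eq_zero.mp h3 with h | h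
  · exact Or.inl h
  · exact Or.inr (sub_eq_zero.mp h)

lemma B_orbitSum_disj {θ : AddChar F ℂ} (hθ : θ ≠ 1) {lam nu : Module.Dual F (Nil n F)}
    {psi : U n F → ℂ} (h : IsIrrChar psi) (h1 : B (orbitSum θ lam) psi ≠ 0)
    (h2 : B (orbitSum θ nu) psi ≠ 0) : nu ∈ dualOrbit lam := by
  by_contra hn
  have h3 := B_mul_conv (orbitSum_class θ nu) (orbitSum_class θ lam) h
  have h4 : (fun k => ∑ b : U n F, orbitSum θ lam b * orbitSum θ nu (b⁻¹ * k)) = 0 := by
    funext k
    rw [conv_orbitSum hθ, if_neg hn]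
    rfl
  rw [h4] at h3
  have h5 : B (0 : U n F → ℂ) psi = 0 := by simp [B]
  rw [h5, mul_zero, natcard_U] at h3
  rcases mul_eq_zero.mp h3 with h | h
  · exact cardU_ne h
  · rcases mul_eq_zero.mp h with h | h
    · exact h2 h
    · exact h1 h

lemma Of_card_ne (lam : Module.Dual F (Nil n F)) : ((Of lam).card : ℂ) ≠ 0 := by
  have : 0 < (Of lam).card := Finset.card_pos.mpr ⟨lam, mem_Of.mpr (self_mem lam)⟩
  exact_mod_cast this.ne'

lemma Of_eq {lam mu : Module.Dual F (Nil n F)} (h : mu ∈ dualOrbit lam) : Of mu = Of lam := by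
  unfold Of
  rw [orbit_eq_iff.mpr h]

/-- the sum of all orbit sums is the regular character -/
lemma sum_orbitSum {θ : AddChar F ℂ} (hθ : θ ≠ 1) (g : U n F) :
    ∑ lam : Module.Dual F (Nil n F), ((Of lam).card : ℂ)⁻¹ * orbitSum θ lam g
      = if g = 1 then (Fintype.card (U n F) : ℂ) else 0 := by
  have h1 : ∀ lam : Module.Dual F (Nil n F), ((Of lam).card : ℂ)⁻¹ * orbitSum θ lam g
      = ∑ mu : Module.Dual F (Nil n F),
        if mu ∈ Of lam then ((Of mu).card : ℂ)⁻¹ * θ (mu (sub1 g)) else 0 := by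
    intro lam
    rw [orbitSum_eq, Finset.mul_sum, Finset.sum_ite_mem, Finset.univ_inter]
    refine Finset.sum_congr rfl fun mu hmu => ?_
    rw [Of_eq (mem_Of.mp hmu)]
  simp only [h1]
  rw [Finset.sum_comm]
  have h2 : ∀ mu : Module.Dual F (Nil n F), ∑ lam : Module.Dual F (Nil n F),
      (if mu ∈ Of lam then ((Of mu).card : ℂ)⁻¹ * θ (mu (sub1 g)) else 0) = θ (mu (sub1 g)) := by
    intro mu
    rw [← Finset.sum_filter, Finset.sum_const]
    have : (Finset.univ.filter fun lam => mu ∈ Of lam) = Of mu := by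
      ext lam
      simp only [Finset.mem_filter, Finset.mem_univ, true_and, mem_Of]
      exact ⟨orbit_symm, orbit_symm⟩
    rw [this, nsmul_eq_mul, ← mul_assoc, mul_inv_cancel₀ (Of_card_ne mu), one_mul]
  simp only [h2]
  rw [sum_dual hθ]
  by_cases h : g = 1
  · rw [if_pos h, if_pos (by rw [h, sub1_one]), card_dual]
  · rw [if_neg h, if_neg]
    intro h'
    apply h
    rw [← ofNil_sub1 g, h', ← sub1_one, ofNil_sub1]

lemma exists_orbit {θ : AddChar F ℂ} (hθ : θ ≠ 1) {psi : U n F → ℂ} (h : IsIrrChar psi) :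
    ∃ lam : Module.Dual F (Nil n F), B (orbitSum θ lam) psi ≠ 0 := by
  by_contra hc
  push Not at hc
  have h1 : B (∑ lam : Module.Dual F (Nil n F), ((Of lam).card : ℂ)⁻¹ • orbitSum θ lam) psi = 0 := by
    rw [B_sum_left]
    refine Finset.sum_eq_zero fun lam _ => ?_
    rw [B_smul_left, hc, mul_zero]
  have h2 : (∑ lam : Module.Dual F (Nil n F), ((Of lam).card : ℂ)⁻¹ • orbitSum θ lam)
      = fun g => if g = 1 then (Fintype.card (U n F) : ℂ) else 0 := by
    funext g
    rw [Finset.sum_apply, ← sum_orbitSum hθ g]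
    rfl
  rw [h2] at h1
  unfold B at h1
  rw [Finset.sum_eq_single 1] at h1
  · simp only [if_true] at h1
    rw [natcard_U, inv_one, ← mul_assoc, inv_mul_cancel₀ cardU_ne, one_mul] at h1
    exact irr_one_ne h h1
  · intro b _ hb
    simp only [if_neg hb, zero_mul]
  · intro h; exact absurd (Finset.mem_univ _) h

lemma exists_irr {θ : AddChar F ℂ} (lam : Module.Dual F (Nil n F)) :
    ∃ psi : IrrCh (U n F), B (orbitSum θ lam) psi.1 ≠ 0 := by
  by_contra hc
  push Not at hc
  have h := class_eq_zero (orbitSum θ lam) (orbitSum_class θ lam) fun chi hchi => hc ⟨chi, hchi⟩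
  have h1 := congrFun h 1
  rw [orbitSum_one] at h1
  exact Of_card_ne lam h1

/-- The equivalence relation on irreducible characters: same orbit of functionals. -/
def relX (θ : AddChar F ℂ) : Setoid (IrrCh (U n F)) where
  r ψ φ := ∀ lam : Module.Dual F (Nil n F),
    B (orbitSum θ lam) ψ.1 ≠ 0 ↔ B (orbitSum θ lam) φ.1 ≠ 0
  iseqv := ⟨fun _ _ => Iff.rfl, fun h lam => (h lam).symm, fun h h' lam => (h lam).trans (h' lam)⟩

/-- The equivalence relation on `U`: `g ~ h` iff `h - 1 = u (g - 1) v` for some `u`, `v`. -/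
def relK (n : ℕ) (F : Type) [Field F] [Fintype F] : Setoid (U n F) where
  r g h := ∃ u v : U n F, mat h - 1 = mat u * (mat g - 1) * mat v
  iseqv := by
    refine ⟨fun g => ⟨1, 1, by simp [mat_one]⟩, ?_, ?_⟩
    · rintro g h ⟨u, v, e⟩
      refine ⟨u⁻¹, v⁻¹, ?_⟩
      have h1 : mat u⁻¹ * mat u = 1 := by rw [← mat_mul, inv_mul_cancel, mat_one]
      have h2 : mat v * mat v⁻¹ = 1 := by rw [← mat_mul, mul_inv_cancel, mat_one]
      rw [e]
      calc mat g - 1 = (mat u⁻¹ * mat u) * (mat g - 1) * (mat v * mat v⁻¹) := by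
            rw [h1, h2, one_mul, mul_one]
        _ = _ := by simp only [Matrix.mul_assoc]
    · rintro g h k ⟨u, v, e⟩ ⟨u', v', e'⟩
      refine ⟨u' * u, v * v', ?_⟩
      rw [e', e, mat_mul, mat_mul]
      simp only [Matrix.mul_assoc]

lemma relK_iff {g h : U n F} :
    relK n F g h ↔ ∃ u v : U n F, sub1 h = twoSided u v (sub1 g) := by
  constructor
  · rintro ⟨u, v, e⟩
    exact ⟨u, v, Subtype.ext e⟩
  · rintro ⟨u, v, e⟩
    exact ⟨u, v, congrArg Subtype.val e⟩

/-- orbits on functionals -/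
def relD (n : ℕ) (F : Type) [Field F] [Fintype F] : Setoid (Module.Dual F (Nil n F)) where
  r lam mu := mu ∈ dualOrbit lam
  iseqv := ⟨self_mem, orbit_symm, orbit_trans⟩

lemma relX_iff {θ : AddChar F ℂ} (hθ : θ ≠ 1) {ψ φ : IrrCh (U n F)}
    {lam : Module.Dual F (Nil n F)} (h : B (orbitSum θ lam) ψ.1 ≠ 0) :
    relX θ φ ψ ↔ B (orbitSum θ lam) φ.1 ≠ 0 := by
  constructor
  · intro h1
    exact (h1 lam).mpr h
  · intro h1 mu
    constructor
    · intro h2
      have h3 := B_orbitSum_disj hθ φ.2 h1 h2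
      have : orbitSum θ mu = orbitSum θ lam := by
        funext g; rw [orbitSum_eq, orbitSum_eq, Of_eq h3]
      rw [this]; exact h
    · intro h2
      have h3 := B_orbitSum_disj hθ ψ.2 h h2
      have : orbitSum θ mu = orbitSum θ lam := by
        funext g; rw [orbitSum_eq, orbitSum_eq, Of_eq h3]
      rw [this]; exact h1

/-- supercharacters are orbit sums -/
theorem superchar_eq {θ : AddChar F ℂ} (hθ : θ ≠ 1) {ψ : IrrCh (U n F)}
    {lam : Module.Dual F (Nil n F)} (h : B (orbitSum θ lam) ψ.1 ≠ 0) :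
    superchar (relX θ) ψ = orbitSum θ lam := by
  funext g
  have h1 := congrFun (expand (orbitSum θ lam) (orbitSum_class θ lam)) g
  rw [Finset.sum_apply] at h1
  rw [h1]
  unfold superchar
  have h2 : {φ : IrrCh (U n F) | relX θ φ ψ}
      = {φ : IrrCh (U n F) | B (orbitSum θ lam) φ.1 ≠ 0} := by
    ext φ
    exact relX_iff hθ h
  rw [h2]
  haveI : Finite (IrrCh (U n F)) := (irr_finite (G := U n F)).to_subtype
  letI : Fintype (IrrCh (U n F)) := Fintype.ofFinite _
  rw [finsum_mem_def, finsum_eq_sum_of_fintype]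
  have h3 : ∀ φ : IrrCh (U n F),
      {φ : IrrCh (U n F) | B (orbitSum θ lam) φ.1 ≠ 0}.indicator (fun φ => φ.1 1 * φ.1 g) φ
      = B (orbitSum θ lam) φ.1 * φ.1 g := by
    intro φ
    by_cases h4 : B (orbitSum θ lam) φ.1 = 0
    · rw [Set.indicator_of_notMem (by simpa using h4), h4, zero_mul]
    · rw [Set.indicator_of_mem (by simpa using h4)]
      rcases B_orbitSum hθ lam φ.2 with h5 | h5
      · exact absurd h5 h4
      · rw [h5]
  rw [Finset.sum_congr rfl fun φ _ => h3 φ]
  rw [← Finset.sum_coe_sort (Irr (U n F))]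
  refine Fintype.sum_equiv (Equiv.subtypeEquivRight fun χ => (mem_Irr (chi := χ)).symm) _ _ ?_
  intro φ
  rfl

end Pool.Agent.R721.Andre
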