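import Pool.Agent.R721.Andre.Sep
import Pool.Agent.R721.Andre.Theory
import Pool.Agent.Helper884.IC.Basic

set_option linter.unusedSectionVars false

open scoped BigOperators Classical Matrix
open Pool.Agent.Helper884.IC

noncomputable section

namespace Pool.Agent.R721.Andre

variable {n : ℕ} {F : Type} [Field F] [Fintype F]

lemma mat_diag (g : U n F) (i : Fin n) : mat g i i = 1 := by
  have := g.2 i i le_rfl
  simp only [Matrix.sub_apply, Matrix.one_apply_eq] at this
  exact sub_eq_zero.mp this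

lemma mat_low (g : U n F) {i j : Fin n} (h : j < i) : mat g i j = 0 := by
  have := g.2 i j h.le
  simp only [Matrix.sub_apply, Matrix.one_apply_ne (ne_of_gt h), sub_zero] at this
  exact this

lemma sub1_apply (g : U n F) {i j : Fin n} (h : i ≠ j) :
    (sub1 g : Matrix (Fin n) (Fin n) F) i j = mat g i j := by
  show (mat g - 1) i j = _
  simp [Matrix.sub_apply, Matrix.one_apply_ne h]

/-- submonoid with vanishing entries `(k, j)` for `i < k < j` -/
def HM (i j : Fin n) : Submonoid (U n F) where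
  carrier := {g | ∀ k, i < k → k < j → mat g k j = 0}
  one_mem' := by
    intro k _ hk
    rw [mat_one, Matrix.one_apply_ne (ne_of_lt hk)]
  mul_mem' := by
    intro g h hg hh k hik hkj
    rw [mat_mul, Matrix.mul_apply]
    refine Finset.sum_eq_zero fun l _ => ?_
    rcases lt_trichotomy l k with h1 | h1 | h1
    · rw [mat_low g h1, zero_mul]
    · subst h1; rw [hh l hik hkj, mul_zero]
    · rcases lt_trichotomy l j with h2 | h2 | h2
      · rw [hh l (hik.trans h1) h2, mul_zero]
      · subst h2; rw [hg k hik hkj, zero_mul]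
      · rw [mat_low h h2, mul_zero]

def HS (i j : Fin n) : Subgroup (U n F) where
  __ := HM i j
  inv_mem' := by
    intro g hg
    have h1 : g⁻¹ = g ^ (orderOf g - 1) := by
      rw [inv_eq_iff_mul_eq_one, ← pow_succ', Nat.sub_add_cancel (orderOf_pos g),
        pow_orderOf_eq_one]
    rw [h1]
    exact (HM i j).pow_mem hg _

lemma mem_HS {i j : Fin n} {g : U n F} : g ∈ HS i j ↔ ∀ k, i < k → k < j → mat g k j = 0 := Iff.rfl

/-- linear character of `HS` -/
def linC (θ : AddChar F ℂ) {i j : Fin n} (hij : i < j) (a : F) : HS (F := F) i j →* ℂ where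
  toFun g := θ (a * mat (g : U n F) i j)
  map_one' := by
    show θ (a * mat (1 : U n F) i j) = 1
    rw [mat_one, Matrix.one_apply_ne (ne_of_lt hij), mul_zero, AddChar.map_zero_eq_one]
  map_mul' g h := by
    show θ (a * mat ((g : U n F) * (h : U n F)) i j) = _
    rw [← AddChar.map_add_eq_mul, ← mul_add]
    congr 2
    rw [mat_mul, Matrix.mul_apply]
    rw [← Finset.sum_subset (Finset.subset_univ {i, j})]
    · rw [Finset.sum_pair (ne_of_lt hij), mat_diag, mat_diag]
      ring
    · intro l _ hl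
      simp only [Finset.mem_insert, Finset.mem_singleton, not_or] at hl
      rcases lt_trichotomy l i with h1 | h1 | h1
      · rw [mat_low _ h1, zero_mul]
      · exact absurd h1 hl.1
      · rcases lt_trichotomy l j with h2 | h2 | h2
        · rw [mem_HS.mp h.2 l h1 h2, mul_zero]
        · exact absurd h2 hl.2
        · rw [mat_low (h : U n F) h2, mul_zero]

def linU (θ : AddChar F ℂ) {i j : Fin n} (hij : i < j) (a : F) : HS (F := F) i j →* ℂˣ :=
  (linC θ hij a).toHomUnits

lemma lamExt_linU (θ : AddChar F ℂ) {i j : Fin n} (hij : i < j) (a : F) (g : U n F) :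
    lamExt (HS i j) (linU θ hij a) g
      = if g ∈ HS i j then θ (a * mat g i j) else 0 := by
  unfold lamExt
  by_cases h : g ∈ HS i j
  · rw [dif_pos h, if_pos h]; rfl
  · rw [dif_neg h, if_neg h]

/-- column functional -/
def colF (w : Matrix (Fin n) (Fin n) F) (i j : Fin n) (a : F) : Module.Dual F (Nil n F) where
  toFun x := a * ((x : Matrix (Fin n) (Fin n) F) * w) i j
  map_add' y z := by
    rw [Submodule.coe_add, add_mul, Matrix.add_apply, mul_add]
  map_smul' c y := by
    rw [Submodule.coe_smul, Matrix.smul_mul, Matrix.smul_apply, smul_eq_mul, RingHom.id_apply,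
      smul_eq_mul]
    ring

lemma colF_eq_zero {w : Matrix (Fin n) (Fin n) F} {i j : Fin n} {a : F} (ha : a ≠ 0) :
    colF w i j a = 0 ↔ ∀ k, i < k → w k j = 0 := by
  constructor
  · intro h k hk
    have h1 := LinearMap.congr_fun h (unitM i k hk (1 : F))
    have h2 : colF w i j a (unitM i k hk (1 : F))
        = a * ((unitM i k hk (1 : F) : Matrix (Fin n) (Fin n) F) * w) i j := rfl
    rw [h2, unitM_mul, if_pos rfl, one_mul] at h1
    rcases mul_eq_zero.mp h1 with h | h
    · exact absurd h ha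
    · exact h
  · intro h
    ext x
    show a * ((x : Matrix (Fin n) (Fin n) F) * w) i j = 0
    rw [Matrix.mul_apply, Finset.sum_eq_zero, mul_zero]
    intro l _
    by_cases hl : i < l
    · rw [h l hl, mul_zero]
    · rw [x.2 i l (not_lt.mp hl), zero_mul]

lemma sum_left {θ : AddChar F ℂ} (hθ : θ ≠ 1) {i j : Fin n} (hij : i < j) {a : F} (ha : a ≠ 0)
    (g : U n F) :
    ∑ w : U n F, θ (box i j a (twoSided w 1 (sub1 g)))
      = (Fintype.card (U n F) : ℂ) * lamExt (HS i j) (linU θ hij a) g := by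
  have h1 : ∀ w : U n F, box i j a (twoSided w 1 (sub1 g))
      = a * mat g i j + colF (sub1 g : Matrix (Fin n) (Fin n) F) i j a (sub1 w) := by
    intro w
    show a * (mat w * (mat g - 1) * mat (1 : U n F)) i j
      = a * mat g i j + a * ((mat w - 1) * (mat g - 1)) i j
    rw [mat_one, mul_one, sub_mul, one_mul, Matrix.sub_apply, Matrix.sub_apply,
      Matrix.one_apply_ne (ne_of_lt hij)]
    ring
  simp only [h1, AddChar.map_add_eq_mul]
  rw [← Finset.mul_sum, sum_U hθ, lamExt_linU]
  have h2 : (∀ k, i < k → (sub1 g : Matrix (Fin n) (Fin n) F) k j = 0) ↔ g ∈ HS i j := by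
    rw [mem_HS]
    constructor
    · intro h k hik hkj
      rw [← sub1_apply g (ne_of_lt hkj)]
      exact h k hik
    · intro h k hik
      by_cases hkj : k < j
      · rw [sub1_apply g (ne_of_lt hkj)]
        exact h k hik hkj
      · exact (sub1 g).2 k j (not_lt.mp hkj)
  by_cases h : g ∈ HS i j
  · rw [if_pos ((colF_eq_zero ha).mpr (h2.mpr h)), if_pos h]; ring
  · rw [if_neg (fun h' => h (h2.mp ((colF_eq_zero ha).mp h'))), if_neg h, mul_zero, mul_zero]

lemma sub1_conj (g v : U n F) : sub1 (v⁻¹ * g * v) = twoSided v⁻¹ v (sub1 g) := by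
  apply Subtype.ext
  show mat (v⁻¹ * g * v) - 1 = mat v⁻¹ * (mat g - 1) * mat v
  rw [mat_mul, mat_mul]
  have h : mat v⁻¹ * mat v = 1 := by rw [← mat_mul, inv_mul_cancel, mat_one]
  rw [mul_sub, sub_mul, mul_one, h]

/-- the orbit sum is a multiple of an induced linear character -/
theorem orbitSum_ind {θ : AddChar F ℂ} (hθ : θ ≠ 1) {i j : Fin n} (hij : i < j) {a : F}
    (ha : a ≠ 0) :
    (Fintype.card (U n F) : ℂ) • orbitSum θ (box i j a)
      = (((Of (box (n := n) i j a)).card : ℂ) * (Nat.card (HS (F := F) i j) : ℂ)) •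
        indChar (HS i j) (linU θ hij a) := by
  funext g
  simp only [Pi.smul_apply, smul_eq_mul]
  have h := avg θ (box i j a) (sub1 g)
  have h1 : ∑ u : U n F, ∑ v : U n F, θ (box i j a (twoSided u v (sub1 g)))
      = ∑ v : U n F, ∑ w : U n F, θ (box i j a (twoSided w 1 (sub1 (v⁻¹ * g * v)))) := by
    rw [Finset.sum_comm]
    refine Finset.sum_congr rfl fun v _ => ?_
    refine Fintype.sum_equiv (Equiv.mulRight v) _ _ fun u => ?_
    simp only [Equiv.coe_mulRight]
    rw [sub1_conj, twoSided_comp, mul_one, mul_inv_cancel_right]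
  rw [h1] at h
  simp only [sum_left hθ hij ha] at h
  rw [← Finset.mul_sum] at h
  have hU := cardU_ne (n := n) (F := F)
  have h2 : (Fintype.card (U n F) : ℂ) * orbitSum θ (box i j a) g
      = ((Of (box (n := n) i j a)).card : ℂ) *
        ∑ v : U n F, lamExt (HS i j) (linU θ hij a) (v⁻¹ * g * v) := by
    apply mul_left_cancel₀ hU
    rw [orbitSum_eq, h]
    ring
  rw [h2]
  unfold indChar
  have hH := cardC_ne (HS (F := F) i j)
  field_simp

/-- the index set -/
abbrev Idx (i j : Fin n) : Type := {k : Fin n // i < k ∧ k < j}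

def rowM {i j : Fin n} (s : Idx i j → F) : Nil n F :=
  ⟨Matrix.of fun p q => if h : p = i ∧ i < q ∧ q < j then s ⟨q, h.2⟩ else 0, by
    intro p q hpq
    simp only [Matrix.of_apply]
    rw [dif_neg]
    rintro ⟨rfl, h, _⟩
    exact absurd h (not_lt.mpr hpq)⟩

def colM {i j : Fin n} (t : Idx i j → F) : Nil n F :=
  ⟨Matrix.of fun p q => if h : q = j ∧ i < p ∧ p < j then t ⟨p, h.2⟩ else 0, by
    intro p q hpq
    simp only [Matrix.of_apply]
    rw [dif_neg]
    rintro ⟨rfl, _, h⟩
    exact absurd h (not_lt.mpr hpq)⟩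

lemma box_unit_left {i j : Fin n} (a : F) (u v : U n F) (k : Fin n) (hk : k < j) :
    box i j a (twoSided u v (unitM k j hk 1)) = a * mat u i k := by
  show a * (mat u * (unitM k j hk (1 : F) : Matrix (Fin n) (Fin n) F) * mat v) i j = _
  congr 1
  rw [Matrix.mul_apply, Finset.sum_eq_single j]
  · rw [mul_unitM, if_pos rfl, mat_diag, mul_one, mul_one]
  · intro b _ hb
    rw [mul_unitM, if_neg hb, zero_mul]
  · intro h; exact absurd (Finset.mem_univ _) h

lemma box_unit_right {i j : Fin n} (a : F) (u v : U n F) (l : Fin n) (hl : i < l) :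
    box i j a (twoSided u v (unitM i l hl 1)) = a * mat v l j := by
  show a * (mat u * (unitM i l hl (1 : F) : Matrix (Fin n) (Fin n) F) * mat v) i j = _
  congr 1
  rw [Matrix.mul_apply, Finset.sum_eq_single l]
  · rw [mul_unitM, if_pos rfl, mat_diag, mul_one, one_mul]
  · intro b _ hb
    rw [mul_unitM, if_neg hb, zero_mul]
  · intro h; exact absurd (Finset.mem_univ _) h

lemma card_orbit_ge {i j : Fin n} {a : F} (ha : a ≠ 0) :
    Fintype.card (Idx i j → F) ^ 2 ≤ (Of (box (n := n) i j a)).card := by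
  have h1 : Fintype.card ((Idx i j → F) × (Idx i j → F)) = Fintype.card (Idx i j → F) ^ 2 := by
    rw [Fintype.card_prod, sq]
  rw [← h1, ← Finset.card_univ]
  refine Finset.card_le_card_of_injOn
    (fun st => dualTwo (ofNil (rowM st.1)) (ofNil (colM st.2)) (box i j a)) ?_ ?_
  · intro st _
    exact mem_Of.mpr ⟨_, _, fun y => rfl⟩
  · rintro ⟨s, t⟩ _ ⟨s', t'⟩ _ h
    have hs : s = s' := by
      funext ⟨k, hk1, hk2⟩
      have h2 := LinearMap.congr_fun h (unitM k j hk2 1)
      simp only [dualTwo_apply] at h2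
      rw [box_unit_left, box_unit_left] at h2
      have h3 := mul_left_cancel₀ ha h2
      rw [mat_ofNil, mat_ofNil, Matrix.add_apply, Matrix.add_apply] at h3
      have h4 := add_left_cancel h3
      have h5 : ∀ r : Idx i j → F, (rowM r : Matrix (Fin n) (Fin n) F) i k = r ⟨k, hk1, hk2⟩ := by
        intro r
        show (if h : i = i ∧ i < k ∧ k < j then r ⟨k, h.2⟩ else 0) = _
        rw [dif_pos ⟨rfl, hk1, hk2⟩]
      rw [h5, h5] at h4
      exact h4
    have ht : t = t' := by
      funext ⟨k, hk1, hk2⟩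
      have h2 := LinearMap.congr_fun h (unitM i k hk1 1)
      simp only [dualTwo_apply] at h2
      rw [box_unit_right, box_unit_right] at h2
      have h3 := mul_left_cancel₀ ha h2
      rw [mat_ofNil, mat_ofNil, Matrix.add_apply, Matrix.add_apply] at h3
      have h4 := add_left_cancel h3
      have h5 : ∀ r : Idx i j → F, (colM r : Matrix (Fin n) (Fin n) F) k j = r ⟨k, hk1, hk2⟩ := by
        intro r
        show (if h : j = j ∧ i < k ∧ k < j then r ⟨k, h.2⟩ else 0) = _
        rw [dif_pos ⟨rfl, hk1, hk2⟩]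
      rw [h5, h5] at h4
      exact h4
    rw [hs, ht]

/-- remove the entries `(k, j)` with `i < k < j` -/
def strip (i j : Fin n) (x : Nil n F) : Nil n F :=
  ⟨Matrix.of fun p q => if q = j ∧ i < p ∧ p < j then 0 else
      (x : Matrix (Fin n) (Fin n) F) p q, by
    intro p q hpq
    simp only [Matrix.of_apply]
    rw [x.2 p q hpq, ite_self]⟩

lemma card_index_le (i j : Fin n) :
    Fintype.card (U n F) ≤ Nat.card (HS (F := F) i j) * Fintype.card (Idx i j → F) := by
  rw [Nat.card_eq_fintype_card, ← Fintype.card_prod]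
  refine Fintype.card_le_of_injective
    (fun g : U n F => ((⟨ofNil (strip i j (sub1 g)), ?_⟩ : HS (F := F) i j),
      (fun k : Idx i j => mat g k.1 j))) ?_
  · intro k hik hkj
    show (1 + (strip i j (sub1 g) : Matrix (Fin n) (Fin n) F)) k j = 0
    rw [Matrix.add_apply, Matrix.one_apply_ne (ne_of_lt hkj), zero_add]
    show (if j = j ∧ i < k ∧ k < j then (0 : F) else _) = 0
    rw [if_pos ⟨rfl, hik, hkj⟩]
  · intro g h e
    have e1 : ofNil (strip i j (sub1 g)) = ofNil (strip i j (sub1 h)) :=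
      congrArg Subtype.val (congrArg Prod.fst e)
    have e2 := congrArg Prod.snd e
    have e3 : strip i j (sub1 g) = strip i j (sub1 h) := by
      rw [← sub1_ofNil (strip i j (sub1 g)), e1, sub1_ofNil]
    rw [← ofNil_sub1 g, ← ofNil_sub1 h]
    congr 1
    apply Subtype.ext
    ext p q
    by_cases hpq : q = j ∧ i < p ∧ p < j
    · obtain ⟨rfl, h1, h2⟩ := hpq
      rw [sub1_apply g (ne_of_lt h2), sub1_apply h (ne_of_lt h2)]
      exact congrFun e2 ⟨p, h1, h2⟩
    · have e4 := congrFun (congrFun (congrArg Subtype.val e3) p) q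
      have e5 : ∀ x : Nil n F, (strip i j x : Matrix (Fin n) (Fin n) F) p q
          = (x : Matrix (Fin n) (Fin n) F) p q := by
        intro x
        show (if q = j ∧ i < p ∧ p < j then (0 : F) else _) = _
        rw [if_neg hpq]
      rw [e5, e5] at e4
      exact e4

theorem single_box_unique {θ : AddChar F ℂ} (hθ : θ ≠ 1) {i j : Fin n} (hij : i < j) {a : F}
    (ha : a ≠ 0) {psi phi : U n F → ℂ} (h1 : IsIrrChar psi) (h2 : IsIrrChar phi)
    (hp : B (orbitSum θ (box i j a)) psi ≠ 0) (hq : B (orbitSum θ (box i j a)) phi ≠ 0) :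
    psi = phi := by
  by_contra hne
  have hm : ∀ chi : U n F → ℂ, IsIrrChar chi → ∃ m : ℕ,
      B (indChar (HS i j) (linU θ hij a)) chi = m := fun chi h => mult_nat _ _ h
  choose! m hm using hm
  set O := (Of (box (n := n) i j a)).card with hO
  set H := Nat.card (HS (F := F) i j) with hH
  set N := Fintype.card (U n F) with hN
  have hNC : (N : ℂ) ≠ 0 := cardU_ne
  have hB : ∀ chi : U n F → ℂ, IsIrrChar chi →
      (N : ℂ) * B (orbitSum θ (box i j a)) chi = (O : ℂ) * H * m chi := by
    intro chi hchi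
    rw [← B_smul_left, orbitSum_ind hθ hij ha, B_smul_left, hm chi hchi]
  have hsum : (N : ℂ) ^ 2 * O = ∑ chi ∈ Irr (U n F), ((O : ℂ) * H * m chi) ^ 2 := by
    have h3 := congrFun (expand (orbitSum θ (box i j a)) (orbitSum_class θ _)) 1
    rw [orbitSum_one, Finset.sum_apply] at h3
    have h3' : (N : ℂ) ^ 2 * O = (N : ℂ) ^ 2 *
        ∑ c ∈ Irr (U n F), (B (orbitSum θ (box i j a)) c • c) 1 := by rw [← h3]
    rw [h3', Finset.mul_sum]
    refine Finset.sum_congr rfl fun chi hchi => ?_
    rw [← hB chi (mem_Irr.mp hchi)]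
    simp only [Pi.smul_apply, smul_eq_mul]
    rcases B_orbitSum hθ (box i j a) (mem_Irr.mp hchi) with h4 | h4
    · rw [h4]; ring
    · rw [h4]; ring
  have hsumN : N ^ 2 * O = O ^ 2 * H ^ 2 * ∑ chi ∈ Irr (U n F), m chi ^ 2 := by
    have : ((N ^ 2 * O : ℕ) : ℂ) = ((O ^ 2 * H ^ 2 * ∑ chi ∈ Irr (U n F), m chi ^ 2 : ℕ) : ℂ) := by
      push_cast
      rw [hsum, Finset.mul_sum]
      refine Finset.sum_congr rfl fun chi _ => ?_
      ring
    exact_mod_cast this
  have hOpos : 0 < O := Finset.card_pos.mpr ⟨_, mem_Of.mpr (self_mem _)⟩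
  have hsum2 : N ^ 2 = O * H ^ 2 * ∑ chi ∈ Irr (U n F), m chi ^ 2 := by
    have : O * N ^ 2 = O * (O * H ^ 2 * ∑ chi ∈ Irr (U n F), m chi ^ 2) := by
      rw [mul_comm O (N ^ 2), hsumN]; ring
    exact Nat.eq_of_mul_eq_mul_left hOpos this
  have hge : N ^ 2 ≤ O * H ^ 2 := by
    have e1 := card_index_le (F := F) i j
    have e2 := card_orbit_ge (n := n) (i := i) (j := j) ha
    calc N ^ 2 ≤ (H * Fintype.card (Idx i j → F)) ^ 2 := Nat.pow_le_pow_left e1 2
      _ = Fintype.card (Idx i j → F) ^ 2 * H ^ 2 := by ring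
      _ ≤ O * H ^ 2 := Nat.mul_le_mul_right _ e2
  have hNpos : 0 < N := Fintype.card_pos
  have hmne : ∀ chi : U n F → ℂ, IsIrrChar chi → B (orbitSum θ (box i j a)) chi ≠ 0 →
      m chi ≠ 0 := by
    intro chi hchi hne' h0
    have := hB chi hchi
    rw [h0, Nat.cast_zero, mul_zero] at this
    rcases mul_eq_zero.mp this with h | h
    · exact hNC h
    · exact hne' h
  have h5 : 2 ≤ ∑ chi ∈ Irr (U n F), m chi ^ 2 := by
    have h6 : ∑ chi ∈ ({psi, phi} : Finset (U n F → ℂ)), m chi ^ 2
        ≤ ∑ chi ∈ Irr (U n F), m chi ^ 2 := by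
      apply Finset.sum_le_sum_of_subset
      intro chi hchi
      rw [Finset.mem_insert, Finset.mem_singleton] at hchi
      rcases hchi with rfl | rfl
      · exact mem_Irr.mpr h1
      · exact mem_Irr.mpr h2
    rw [Finset.sum_pair hne] at h6
    have h7 : 1 ≤ m psi ^ 2 := Nat.one_le_pow _ _ (Nat.pos_of_ne_zero (hmne psi h1 hp))
    have h8 : 1 ≤ m phi ^ 2 := Nat.one_le_pow _ _ (Nat.pos_of_ne_zero (hmne phi h2 hq))
    omega
  have h9 : N ^ 2 * 2 ≤ N ^ 2 := by
    calc N ^ 2 * 2 ≤ (O * H ^ 2) * ∑ chi ∈ Irr (U n F), m chi ^ 2 := Nat.mul_le_mul hge h5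
      _ = N ^ 2 := hsum2.symm
  have h10 : 0 < N ^ 2 := by positivity
  omega

end Pool.Agent.R721.Andre
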