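import Pool.Agent.R721.Andre.Canon

set_option linter.unusedSectionVars false

open scoped BigOperators Classical Matrix
open Pool.Agent.Helper884.IC

noncomputable section

namespace Pool.Agent.R721.Andre

variable {n : ℕ} {F : Type} [Field F] [Fintype F]

lemma avg (θ : AddChar F ℂ) (lam : Module.Dual F (Nil n F)) (z : Nil n F) :
    (Fintype.card (U n F) : ℂ) * ((Fintype.card (U n F) : ℂ) * ∑ mu ∈ Of lam, θ (mu z))
      = ((Of lam).card : ℂ) * ∑ u : U n F, ∑ v : U n F, θ (lam (twoSided u v z)) := by
  have h1 : (Fintype.card (U n F) : ℂ) * ((Fintype.card (U n F) : ℂ) * ∑ mu ∈ Of lam, θ (mu z))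
      = ∑ u : U n F, ∑ v : U n F, ∑ mu ∈ Of lam, θ (mu (twoSided u v z)) := by
    simp only [sum_Of_twoSided, Finset.sum_const, Finset.card_univ, nsmul_eq_mul]
  rw [h1]
  have h2 : ∀ mu ∈ Of lam, ∑ u : U n F, ∑ v : U n F, θ (mu (twoSided u v z))
      = ∑ u : U n F, ∑ v : U n F, θ (lam (twoSided u v z)) := by
    intro mu hmu
    obtain ⟨u0, v0, e⟩ := mem_Of.mp hmu
    simp only [e, twoSided_comp]
    refine Fintype.sum_equiv (Equiv.mulLeft u0) _ _ fun u => ?_
    refine Fintype.sum_equiv (Equiv.mulRight v0) _ _ fun v => ?_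
    rfl
  calc ∑ u : U n F, ∑ v : U n F, ∑ mu ∈ Of lam, θ (mu (twoSided u v z))
      = ∑ mu ∈ Of lam, ∑ u : U n F, ∑ v : U n F, θ (mu (twoSided u v z)) := by
        rw [Finset.sum_comm' (s := Of lam) (t := fun _ => Finset.univ) (t' := Finset.univ)
          (s' := fun _ => Of lam) (by simp)]
        refine Finset.sum_congr rfl fun u _ => ?_
        rw [Finset.sum_comm]
    _ = _ := by
        rw [Finset.sum_congr rfl h2, Finset.sum_const, nsmul_eq_mul]

/-- matrix unit -/
def unitM (k l : Fin n) (h : k < l) (c : F) : Nil n F :=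
  ⟨Matrix.of fun p q => if p = k ∧ q = l then c else 0, by
    intro i j hij
    simp only [Matrix.of_apply]
    rw [if_neg]
    rintro ⟨rfl, rfl⟩
    exact absurd h (not_lt.mpr hij)⟩

lemma unitM_apply (k l : Fin n) (h : k < l) (c : F) (p q : Fin n) :
    (unitM k l h c : Matrix (Fin n) (Fin n) F) p q = if p = k ∧ q = l then c else 0 := rfl

lemma mul_unitM (w : Matrix (Fin n) (Fin n) F) (k l : Fin n) (h : k < l) (c : F) (i j : Fin n) :
    (w * (unitM k l h c : Matrix (Fin n) (Fin n) F)) i j = if j = l then w i k * c else 0 := by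
  rw [Matrix.mul_apply, Finset.sum_eq_single k]
  · rw [unitM_apply]
    by_cases hj : j = l
    · rw [if_pos hj, if_pos ⟨rfl, hj⟩]
    · rw [if_neg hj, if_neg (fun h' => hj h'.2), mul_zero]
  · intro b _ hb
    rw [unitM_apply, if_neg (fun h' => hb h'.1), mul_zero]
  · intro h; exact absurd (Finset.mem_univ _) h

lemma unitM_mul (w : Matrix (Fin n) (Fin n) F) (k l : Fin n) (h : k < l) (c : F) (i j : Fin n) :
    ((unitM k l h c : Matrix (Fin n) (Fin n) F) * w) i j = if i = k then c * w l j else 0 := by
  rw [Matrix.mul_apply, Finset.sum_eq_single l]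
  · rw [unitM_apply]
    by_cases hj : i = k
    · rw [if_pos hj, if_pos ⟨hj, rfl⟩]
    · rw [if_neg hj, if_neg (fun h' => hj h'.1), zero_mul]
  · intro b _ hb
    rw [unitM_apply, if_neg (fun h' => hb h'.2), zero_mul]
  · intro h; exact absurd (Finset.mem_univ _) h

/-- row functional -/
def rowF (w : Matrix (Fin n) (Fin n) F) (i j : Fin n) (a : F) : Module.Dual F (Nil n F) where
  toFun x := a * (w * (x : Matrix (Fin n) (Fin n) F)) i j
  map_add' y z := by
    rw [Submodule.coe_add, mul_add, Matrix.add_apply, mul_add]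
  map_smul' c y := by
    rw [Submodule.coe_smul, Matrix.mul_smul, Matrix.smul_apply, smul_eq_mul, RingHom.id_apply,
      smul_eq_mul]
    ring

lemma rowF_eq_zero {w : Matrix (Fin n) (Fin n) F} {i j : Fin n} {a : F} (ha : a ≠ 0) :
    rowF w i j a = 0 ↔ ∀ l, l < j → w i l = 0 := by
  constructor
  · intro h l hl
    have h1 := LinearMap.congr_fun h (unitM l j hl 1)
    have h2 : rowF w i j a (unitM l j hl (1 : F))
        = a * (w * (unitM l j hl (1 : F) : Matrix (Fin n) (Fin n) F)) i j := rfl
    rw [h2, mul_unitM, if_pos rfl, mul_one] at h1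
    rcases mul_eq_zero.mp h1 with h | h
    · exact absurd h ha
    · exact h
  · intro h
    ext x
    show a * (w * (x : Matrix (Fin n) (Fin n) F)) i j = 0
    rw [Matrix.mul_apply, Finset.sum_eq_zero, mul_zero]
    intro l _
    by_cases hl : l < j
    · rw [h l hl, zero_mul]
    · rw [x.2 l j (not_lt.mp hl), mul_zero]

lemma box_twoSided (i j : Fin n) (a : F) (u v : U n F) (z : Nil n F) :
    box i j a (twoSided u v z) = a * (mat u * (z : Matrix (Fin n) (Fin n) F)) i j
      + rowF (mat u * (z : Matrix (Fin n) (Fin n) F)) i j a (sub1 v) := by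
  show a * (mat u * (z : Matrix (Fin n) (Fin n) F) * mat v) i j
    = a * (mat u * (z : Matrix (Fin n) (Fin n) F)) i j
      + a * (mat u * (z : Matrix (Fin n) (Fin n) F) * (mat v - 1)) i j
  rw [mul_sub, mul_one, Matrix.sub_apply]
  ring

/-- the relevant set of row vectors -/
def Sset (i j : Fin n) (z : Nil n F) : Finset (U n F) :=
  Finset.univ.filter fun u => ∀ l, l < j → (mat u * (z : Matrix (Fin n) (Fin n) F)) i l = 0

def Ssum (θ : AddChar F ℂ) (i j : Fin n) (a : F) (z : Nil n F) : ℂ :=
  ∑ u ∈ Sset i j z, θ (a * (mat u * (z : Matrix (Fin n) (Fin n) F)) i j)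

lemma inner_sum {θ : AddChar F ℂ} (hθ : θ ≠ 1) (i j : Fin n) {a : F} (ha : a ≠ 0) (z : Nil n F) :
    ∑ u : U n F, ∑ v : U n F, θ (box i j a (twoSided u v z))
      = (Fintype.card (U n F) : ℂ) * Ssum θ i j a z := by
  unfold Ssum Sset
  rw [Finset.sum_filter, Finset.mul_sum]
  refine Finset.sum_congr rfl fun u _ => ?_
  simp only [box_twoSided, AddChar.map_add_eq_mul]
  rw [← Finset.mul_sum, sum_U hθ]
  by_cases h : ∀ l, l < j → (mat u * (z : Matrix (Fin n) (Fin n) F)) i l = 0
  · rw [if_pos ((rowF_eq_zero ha).mpr h), if_pos h]; ring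
  · rw [if_neg (fun h' => h ((rowF_eq_zero ha).mp h')), if_neg h, mul_zero, mul_zero]

lemma orbit_box {θ : AddChar F ℂ} (hθ : θ ≠ 1) (i j : Fin n) {a : F} (ha : a ≠ 0) (z : Nil n F) :
    (Fintype.card (U n F) : ℂ) * ∑ mu ∈ Of (box i j a), θ (mu z)
      = ((Of (box (n := n) i j a)).card : ℂ) * Ssum θ i j a z := by
  have h := avg θ (box i j a) z
  rw [inner_sum hθ i j ha] at h
  have hc := cardU_ne' (n := n) (F := F)
  have : (Fintype.card (U n F) : ℂ) * ((Fintype.card (U n F) : ℂ) *
      ∑ mu ∈ Of (box i j a), θ (mu z))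
      = (Fintype.card (U n F) : ℂ) * (((Of (box (n := n) i j a)).card : ℂ) * Ssum θ i j a z) := by
    rw [h]; ring
  exact mul_left_cancel₀ hc this
where
  cardU_ne' {n : ℕ} {F : Type} [Field F] [Fintype F] : (Fintype.card (U n F) : ℂ) ≠ 0 := by
    exact_mod_cast Fintype.card_ne_zero

lemma addchar_sep {θ : AddChar F ℂ} (hθ : θ ≠ 1) {x y : F}
    (h : ∀ a : F, a ≠ 0 → θ (a * x) = θ (a * y)) : x = y := by
  by_contra hne
  apply hθ
  ext b
  by_cases hb : b = 0
  · subst hb; simp
  · have hxy : x - y ≠ 0 := sub_ne_zero.mpr hne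
    have h1 := h (b / (x - y)) (div_ne_zero hb hxy)
    have h2 : b = b / (x - y) * x - b / (x - y) * y := by
      rw [← mul_sub, div_mul_cancel₀ _ hxy]
    rw [h2, AddChar.map_sub_eq_div, h1, div_self]
    · rfl
    · have := AddChar.val_isUnit θ (b / (x - y) * y)
      exact this.ne_zero

lemma pp_value {θ : AddChar F ℂ} (hθ : θ ≠ 1) (z : Nil n F) (hz : IsPP z) (i j : Fin n) :
    ∃ N : ℕ, (∀ a : F, a ≠ 0 → Ssum θ i j a z
        = N * θ (a * (z : Matrix (Fin n) (Fin n) F) i j)) ∧
      ((z : Matrix (Fin n) (Fin n) F) i j ≠ 0 → N ≠ 0) := by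
  set Z : Matrix (Fin n) (Fin n) F := (z : Matrix (Fin n) (Fin n) F) with hZ
  by_cases hij : Z i j = 0
  · by_cases hk : ∃ k, i < k ∧ Z k j ≠ 0
    · -- the sum vanishes
      obtain ⟨k, hik, hkj⟩ := hk
      refine ⟨0, fun a ha => ?_, fun h => absurd hij h⟩
      rw [Nat.cast_zero, zero_mul]
      obtain ⟨b, hb⟩ : ∃ b : F, θ b ≠ 1 := by
        by_contra hc
        push Not at hc
        exact hθ (by ext b; exact hc b)
      set c : F := b / (a * Z k j) with hc
      have hcb : a * (c * Z k j) = b := by
        rw [hc]; field_simp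
      set e : U n F := ofNil (unitM i k hik c) with he
      have h1 : ∀ (u : U n F) (l : Fin n), (mat (u * e) * Z) i l = (mat u * Z) i l + c * Z k l := by
        intro u l
        rw [mat_mul, he, mat_ofNil, mul_add, mul_one, add_mul, Matrix.add_apply]
        congr 1
        rw [Matrix.mul_assoc, Matrix.mul_apply, Finset.sum_eq_single i]
        · rw [unitM_mul, if_pos rfl]
          have : mat u i i = 1 := by
            have := u.2 i i le_rfl
            simp only [Matrix.sub_apply, Matrix.one_apply_eq] at this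
            exact sub_eq_zero.mp this
          rw [this, one_mul]
        · intro s _ hs
          rw [unitM_mul, if_neg hs, mul_zero]
        · intro h; exact absurd (Finset.mem_univ _) h
      have h2 : ∀ l, l ≠ j → Z k l = 0 := (hz k j hkj).1
      have h3 : Ssum θ i j a z = θ b * Ssum θ i j a z := by
        unfold Ssum
        rw [Finset.mul_sum]
        symm
        refine Finset.sum_bij' (fun u _ => u * e) (fun u _ => u * e⁻¹) ?_ ?_ ?_ ?_ ?_
        · intro u hu
          simp only [Sset, Finset.mem_filter, Finset.mem_univ, true_and] at hu ⊢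
          intro l hl
          rw [h1, hu l hl, h2 l (ne_of_lt hl)]; simp
        · intro u hu
          simp only [Sset, Finset.mem_filter, Finset.mem_univ, true_and] at hu ⊢
          intro l hl
          have h4 := h1 (u * e⁻¹) l
          rw [inv_mul_cancel_right] at h4
          have h5 := hu l hl
          rw [h4, h2 l (ne_of_lt hl)] at h5
          simpa using h5
        · intro u _; simp
        · intro u _; simp
        · intro u _
          rw [h1, mul_add, hcb, AddChar.map_add_eq_mul, mul_comm]
      have h4 : (1 - θ b) * Ssum θ i j a z = 0 := by linear_combination h3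
      rcases mul_eq_zero.mp h4 with h | h
      · exact absurd (sub_eq_zero.mp h).symm hb
      · exact h
    · push Not at hk
      refine ⟨(Sset i j z).card, fun a ha => ?_, fun h => absurd hij h⟩
      rw [hij, mul_zero, AddChar.map_zero_eq_one, mul_one]
      unfold Ssum
      have : ∀ u ∈ Sset i j z, θ (a * (mat u * Z) i j) = 1 := by
        intro u _
        have h5 : (mat u * Z) i j = 0 := by
          rw [Matrix.mul_apply]
          refine Finset.sum_eq_zero fun k _ => ?_
          rcases lt_trichotomy i k with h | h | h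
          · rw [hk k h, mul_zero]
          · subst h; rw [hij, mul_zero]
          · have : mat u i k = 0 := by
              have := u.2 i k h.le
              simp only [Matrix.sub_apply, Matrix.one_apply_ne (ne_of_gt h), sub_zero] at this
              exact this
            rw [this, zero_mul]
        rw [h5, mul_zero, AddChar.map_zero_eq_one]
      rw [Finset.sum_congr rfl this]
      simp
  · -- nonzero entry
    have hcol : ∀ k, k ≠ i → Z k j = 0 := (hz i j hij).2
    have hrow : ∀ l, l ≠ j → Z i l = 0 := (hz i j hij).1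
    refine ⟨(Sset i j z).card, fun a ha => ?_, fun _ => ?_⟩
    · unfold Ssum
      have : ∀ u ∈ Sset i j z, θ (a * (mat u * Z) i j) = θ (a * Z i j) := by
        intro u _
        have h5 : (mat u * Z) i j = Z i j := by
          rw [Matrix.mul_apply, Finset.sum_eq_single i]
          · have : mat u i i = 1 := by
              have := u.2 i i le_rfl
              simp only [Matrix.sub_apply, Matrix.one_apply_eq] at this
              exact sub_eq_zero.mp this
            rw [this, one_mul]
          · intro k _ hk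
            rw [hcol k hk, mul_zero]
          · intro h; exact absurd (Finset.mem_univ _) h
        rw [h5]
      rw [Finset.sum_congr rfl this]
      simp
    · have : (1 : U n F) ∈ Sset i j z := by
        simp only [Sset, Finset.mem_filter, Finset.mem_univ, true_and]
        intro l hl
        rw [mat_one, one_mul]
        exact hrow l (ne_of_lt hl)
      exact (Finset.card_pos.mpr ⟨1, this⟩).ne'

lemma addchar_norm (θ : AddChar F ℂ) (x : F) : ‖θ x‖ = 1 := AddChar.norm_apply θ x

theorem pp_sep {θ : AddChar F ℂ} (hθ : θ ≠ 1) (z z' : Nil n F) (hz : IsPP z) (hz' : IsPP z')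
    (h : ∀ i j : Fin n, i < j → ∀ a : F, a ≠ 0 →
      ∑ mu ∈ Of (box i j a), θ (mu z) = ∑ mu ∈ Of (box i j a), θ (mu z')) : z = z' := by
  apply Subtype.ext
  ext i j
  by_cases hij : i < j
  swap
  · rw [z.2 i j (not_lt.mp hij), z'.2 i j (not_lt.mp hij)]
  obtain ⟨N, hN1, hN2⟩ := pp_value hθ z hz i j
  obtain ⟨M, hM1, hM2⟩ := pp_value hθ z' hz' i j
  have key : ∀ a : F, a ≠ 0 → (N : ℂ) * θ (a * (z : Matrix (Fin n) (Fin n) F) i j)
      = M * θ (a * (z' : Matrix (Fin n) (Fin n) F) i j) := by
    intro a ha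
    have h1 := orbit_box hθ i j ha z
    have h2 := orbit_box hθ i j ha z'
    rw [h i j hij a ha, h2] at h1
    have hc : ((Of (box (n := n) i j a)).card : ℂ) ≠ 0 := by
      have : 0 < (Of (box (n := n) i j a)).card :=
        Finset.card_pos.mpr ⟨_, mem_Of.mpr (self_mem _)⟩
      exact_mod_cast this.ne'
    have h3 := mul_left_cancel₀ hc h1
    rw [← hN1 a ha, ← hM1 a ha, h3]
  have hNM : (N : ℝ) = M := by
    have h1 := congrArg norm (key 1 one_ne_zero)
    rw [norm_mul, norm_mul, addchar_norm, addchar_norm, mul_one, mul_one] at h1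
    simpa using h1
  have hNM' : N = M := by exact_mod_cast hNM
  by_cases hzz : (z : Matrix (Fin n) (Fin n) F) i j = 0 ∧ (z' : Matrix (Fin n) (Fin n) F) i j = 0
  · rw [hzz.1, hzz.2]
  · have hN : N ≠ 0 := by
      by_cases h1 : (z : Matrix (Fin n) (Fin n) F) i j = 0
      · have h2 : (z' : Matrix (Fin n) (Fin n) F) i j ≠ 0 := fun h2 => hzz ⟨h1, h2⟩
        rw [hNM']; exact hM2 h2
      · exact hN2 h1
    apply addchar_sep hθ
    intro a ha
    have h1 := key a ha
    rw [← hNM'] at h1
    exact mul_left_cancel₀ (by exact_mod_cast hN) h1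

end Pool.Agent.R721.Andre
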